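import Pool.Agent.Helper20.EX2.WildM
import Pool.Agent.Helper12.SS.AMain
import Pool.Agent.Helper38.DG.AdvTools

/-!
# Monadic second-order spectra: the wild case against advice
-/

set_option autoImplicit false
set_option linter.unusedVariables false

namespace Pool.Agent.Helper20.EX2

open FirstOrder FirstOrder.Language Pool.Agent.Helper20.Spectra Pool.Agent.Helper20.OP
open Pool.Agent.Helper20.FS
open Pool.Agent.Helper20.EX (stars EdgeOf subdiv IsSubdiv HasSub SpectrumOver Monotone SomewhereDense)
open Pool.Agent.Helper29.EX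
open Pool.Agent.Helper32.MX (MSpectrumOver)
open Pool.Agent.Helper14.SS Pool.Agent.Helper12.SS
open Pool.Agent.Helper38.DG (advOf advPre)

variable {K : ∀ n : ℕ, Str 1 (Fin n) → Prop} {ψ : (binLang 1).Sentence}

/-- The wild case: some monadic second-order spectrum over `K` is not rudimentary with advice. -/
theorem mso_wildAdv (hK : DefBy K ψ) (hM : Monotone K) (hS : HasAll claws K) :
    ∃ A : Set ℕ, MSpectrumOver K A ∧ ¬ RudAdv A := by
  by_contra hcon
  push Not at hcon
  have hQ : ∀ A : Set ℕ, IsSpectrum A → RudAdv A := by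
    intro A hA
    obtain ⟨⟨U, hU, hall⟩, -⟩ := mono_universal hK hM hS
    obtain ⟨h, rfl⟩ := (hall A).1 hA
    exact advPre U h (hcon U (mspec_fo hU))
  obtain ⟨φ, hφ⟩ := smallSetsAdv.2 hQ
  obtain ⟨m, hm, hcode⟩ := mspec_code hK hM hS
  obtain ⟨A, hA, hA'⟩ := hcode φ
  apply hφ id monotone_id (fun b => ⟨b + 1, Nat.lt_succ_self b⟩)
  have h1 := advPre A (Polynomial.C m * Polynomial.X ^ 2) (hcon A hA)
  have h2 : arithS id φ =
      {n : ℕ | 1 ≤ n ∧ (Polynomial.C m * Polynomial.X ^ 2 : Polynomial ℕ).eval n ∈ A} := by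
    ext n
    refine and_congr_right fun hn => ?_
    refine (hA' n hn).symm.trans ?_
    simp only [Polynomial.eval_mul, Polynomial.eval_C, Polynomial.eval_pow, Polynomial.eval_X]
  rw [h2]
  exact h1

/-- All monadic second-order spectra over `K` are rudimentary with advice if and only if `K` omits a
forest of subdivided claws, and then all are ultimately periodic. -/
theorem mso_dichotomyAdv (hK : DefBy K ψ) (hM : Monotone K) :
    ((∀ A : Set ℕ, MSpectrumOver K A → RudAdv A) ↔ ¬ HasAll claws K) ∧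
    (¬ HasAll claws K → ∀ A : Set ℕ, MSpectrumOver K A → UltPeriodic A) := by
  obtain ⟨-, h0⟩ := mso_dichotomy hK hM
  refine ⟨⟨fun h hS => ?_, fun hS A hA => ?_⟩, h0⟩
  · obtain ⟨A, hA, hr⟩ := mso_wildAdv hK hM hS
    exact hr (h A hA)
  · exact advOf A (ultPeriodic_rud (h0 hS A hA))

end Pool.Agent.Helper20.EX2
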