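import Mathlib

/-!
# Square grids: addition and multiplication by reachability

`h`: one step to the right; `u`: one step up.
-/

set_option autoImplicit false

namespace Pool.Agent.Helper20.EX2

open Relation

section defs

variable {V : Type}

/-- no predecessor -/
def Src (r : V → V → Prop) (x : V) : Prop := ∀ w, ¬ r w x

/-- one step down and one to the right -/
def Anti (h u : V → V → Prop) (a b : V) : Prop := ∃ w, u w a ∧ h w b

/-- `x` is the lowest element of the column of `p` -/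
def Col (u : V → V → Prop) (p x : V) : Prop := Src u x ∧ ReflTransGen u x p

/-- `x` is the lowest element of the column whose number is that of the row of `p` -/
def Row (h u : V → V → Prop) (p x : V) : Prop :=
  Src u x ∧ ∃ y, Src h y ∧ ReflTransGen h y p ∧ ReflTransGen (Anti h u) y x

/-- addition on the lowest row -/
def AddR (h u : V → V → Prop) (x y z : V) : Prop :=
  Src u x ∧ Src u y ∧ Src u z ∧ ∃ p, Col u p x ∧ Row h u p y ∧ ReflTransGen (Anti h u) p z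

/-- one step to the right and `y` steps up -/
def StepR (h u : V → V → Prop) (y a b : V) : Prop :=
  ∃ ca cb ra rb, Col u a ca ∧ Col u b cb ∧ h ca cb ∧ Row h u a ra ∧ Row h u b rb ∧
    AddR h u ra y rb

/-- multiplication on the lowest row -/
def MulR (h u : V → V → Prop) (x y z : V) : Prop :=
  Src u x ∧ Src u y ∧ Src u z ∧ ∃ o p, Src u o ∧ Src h o ∧ Col u p x ∧ Row h u p z ∧
    ReflTransGen (StepR h u y) o p

end defs

section grid

variable {n : ℕ}

/-- one step to the right -/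
def gh (n : ℕ) (p q : Fin n × Fin n) : Prop := (p.1 : ℕ) + 1 = q.1 ∧ (p.2 : ℕ) = q.2

/-- one step up -/
def gu (n : ℕ) (p q : Fin n × Fin n) : Prop := (p.1 : ℕ) = q.1 ∧ (p.2 : ℕ) + 1 = q.2

lemma ext20 {p q : Fin n × Fin n} (h1 : (p.1 : ℕ) = q.1) (h2 : (p.2 : ℕ) = q.2) : p = q :=
  Prod.ext (Fin.ext h1) (Fin.ext h2)

lemma src_gu (x : Fin n × Fin n) : Src (gu n) x ↔ (x.2 : ℕ) = 0 := by
  constructor
  · intro h
    by_contra h0
    refine h (x.1, ⟨(x.2 : ℕ) - 1, by have := x.2.is_lt; omega⟩) ⟨rfl, ?_⟩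
    show (x.2 : ℕ) - 1 + 1 = x.2
    omega
  · rintro h w ⟨_, h2⟩
    omega

lemma src_gh (x : Fin n × Fin n) : Src (gh n) x ↔ (x.1 : ℕ) = 0 := by
  constructor
  · intro h
    by_contra h0
    refine h (⟨(x.1 : ℕ) - 1, by have := x.1.is_lt; omega⟩, x.2) ⟨?_, rfl⟩
    show (x.1 : ℕ) - 1 + 1 = x.1
    omega
  · rintro h w ⟨h2, _⟩
    omega

lemma rtg_gu (x p : Fin n × Fin n) :
    ReflTransGen (gu n) x p ↔ (x.1 : ℕ) = p.1 ∧ (x.2 : ℕ) ≤ p.2 := by
  constructor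
  · intro h
    induction h with
    | refl => exact ⟨rfl, le_rfl⟩
    | tail _ hs ih => exact ⟨ih.1.trans hs.1, by have := hs.2; omega⟩
  · rintro ⟨h1, h2⟩
    have key : ∀ d : ℕ, ∀ p : Fin n × Fin n, (x.1 : ℕ) = p.1 → (x.2 : ℕ) + d = p.2 →
        ReflTransGen (gu n) x p := by
      intro d
      induction d with
      | zero =>
        intro p h1 h2
        have : x = p := ext20 h1 (by omega)
        rw [this]
      | succ d ih =>
        intro p h1 h2
        have hlt := p.2.is_lt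
        refine ReflTransGen.tail (ih (p.1, ⟨(p.2 : ℕ) - 1, by omega⟩) h1 ?_) ⟨rfl, ?_⟩
        · show (x.2 : ℕ) + d = (p.2 : ℕ) - 1
          omega
        · show (p.2 : ℕ) - 1 + 1 = p.2
          omega
    exact key ((p.2 : ℕ) - x.2) p h1 (by omega)

lemma rtg_gh (x p : Fin n × Fin n) :
    ReflTransGen (gh n) x p ↔ (x.1 : ℕ) ≤ p.1 ∧ (x.2 : ℕ) = p.2 := by
  constructor
  · intro h
    induction h with
    | refl => exact ⟨le_rfl, rfl⟩
    | tail _ hs ih => exact ⟨by have := hs.1; omega, ih.2.trans hs.2⟩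
  · rintro ⟨h1, h2⟩
    have key : ∀ d : ℕ, ∀ p : Fin n × Fin n, (x.2 : ℕ) = p.2 → (x.1 : ℕ) + d = p.1 →
        ReflTransGen (gh n) x p := by
      intro d
      induction d with
      | zero =>
        intro p h1 h2
        have : x = p := ext20 (by omega) h1
        rw [this]
      | succ d ih =>
        intro p h1 h2
        have hlt := p.1.is_lt
        refine ReflTransGen.tail (ih (⟨(p.1 : ℕ) - 1, by omega⟩, p.2) h1 ?_) ⟨?_, rfl⟩
        · show (x.1 : ℕ) + d = (p.1 : ℕ) - 1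
          omega
        · show (p.1 : ℕ) - 1 + 1 = p.1
          omega
    exact key ((p.1 : ℕ) - x.1) p h2 (by omega)

lemma anti_iff (p q : Fin n × Fin n) :
    Anti (gh n) (gu n) p q ↔ (p.1 : ℕ) + 1 = q.1 ∧ (p.2 : ℕ) = q.2 + 1 := by
  constructor
  · rintro ⟨w, ⟨h1, h2⟩, h3, h4⟩
    omega
  · rintro ⟨h1, h2⟩
    exact ⟨(p.1, q.2), ⟨rfl, h2.symm⟩, h1, rfl⟩

lemma rtg_anti (p q : Fin n × Fin n) : ReflTransGen (Anti (gh n) (gu n)) p q ↔
    (p.1 : ℕ) ≤ q.1 ∧ (p.1 : ℕ) + p.2 = q.1 + q.2 := by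
  constructor
  · intro h
    induction h with
    | refl => exact ⟨le_rfl, rfl⟩
    | tail _ hs ih =>
      have h1 := (anti_iff _ _).1 hs
      omega
  · rintro ⟨h1, h2⟩
    have key : ∀ d : ℕ, ∀ q : Fin n × Fin n, (p.1 : ℕ) + d = q.1 →
        (p.1 : ℕ) + p.2 = q.1 + q.2 → ReflTransGen (Anti (gh n) (gu n)) p q := by
      intro d
      induction d with
      | zero =>
        intro q h1 h2
        have : p = q := ext20 (by omega) (by omega)
        rw [this]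
      | succ d ih =>
        intro q h1 h2
        have hlt := q.1.is_lt
        have hlt' := p.2.is_lt
        refine ReflTransGen.tail (ih (⟨(q.1 : ℕ) - 1, by omega⟩, ⟨(q.2 : ℕ) + 1, by omega⟩) ?_ ?_)
          ((anti_iff _ _).2 ⟨?_, rfl⟩)
        · show (p.1 : ℕ) + d = (q.1 : ℕ) - 1
          omega
        · show (p.1 : ℕ) + p.2 = (q.1 : ℕ) - 1 + ((q.2 : ℕ) + 1)
          omega
        · show (q.1 : ℕ) - 1 + 1 = q.1
          omega
    exact key ((q.1 : ℕ) - p.1) q (by omega) h2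

lemma col_grid (p x : Fin n × Fin n) : Col (gu n) p x ↔ (x.1 : ℕ) = p.1 ∧ (x.2 : ℕ) = 0 := by
  unfold Col
  rw [src_gu, rtg_gu]
  omega

lemma row_grid (p x : Fin n × Fin n) :
    Row (gh n) (gu n) p x ↔ (x.1 : ℕ) = p.2 ∧ (x.2 : ℕ) = 0 := by
  unfold Row
  simp only [src_gu, src_gh, rtg_gh, rtg_anti]
  constructor
  · rintro ⟨h1, y, h2, h3, h4⟩
    omega
  · rintro ⟨h1, h2⟩
    have hlt := x.2.is_lt
    refine ⟨h2, (⟨0, by omega⟩, p.2), rfl, ⟨Nat.zero_le _, rfl⟩, Nat.zero_le _, ?_⟩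
    show 0 + (p.2 : ℕ) = x.1 + x.2
    omega

lemma addR_grid (x y z : Fin n × Fin n) : AddR (gh n) (gu n) x y z ↔
    (x.2 : ℕ) = 0 ∧ (y.2 : ℕ) = 0 ∧ (z.2 : ℕ) = 0 ∧ (x.1 : ℕ) + y.1 = z.1 := by
  unfold AddR
  simp only [src_gu, col_grid, row_grid, rtg_anti]
  constructor
  · rintro ⟨h1, h2, h3, p, h4, h5, h6⟩
    omega
  · rintro ⟨h1, h2, h3, h4⟩
    refine ⟨h1, h2, h3, (x.1, y.1), ⟨rfl, h1⟩, ⟨rfl, h2⟩, ?_, ?_⟩
    · show (x.1 : ℕ) ≤ z.1
      omega
    · show (x.1 : ℕ) + y.1 = z.1 + z.2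
      omega

lemma stepR_grid (y a b : Fin n × Fin n) (hy : (y.2 : ℕ) = 0) : StepR (gh n) (gu n) y a b ↔
    (a.1 : ℕ) + 1 = b.1 ∧ (a.2 : ℕ) + y.1 = b.2 := by
  unfold StepR
  simp only [col_grid, row_grid, addR_grid]
  constructor
  · rintro ⟨ca, cb, ra, rb, h1, h2, ⟨h3, h4⟩, h5, h6, h7⟩
    omega
  · rintro ⟨h1, h2⟩
    have hlt := a.1.is_lt
    have h0 : 0 < n := by omega
    exact ⟨(a.1, ⟨0, h0⟩), (b.1, ⟨0, h0⟩), (a.2, ⟨0, h0⟩), (b.2, ⟨0, h0⟩), ⟨rfl, rfl⟩, ⟨rfl, rfl⟩,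
      ⟨h1, rfl⟩, ⟨rfl, rfl⟩, ⟨rfl, rfl⟩, rfl, hy, rfl, h2⟩

lemma rtg_step (y o p : Fin n × Fin n) (hy : (y.2 : ℕ) = 0) (ho : (o.1 : ℕ) = 0)
    (ho' : (o.2 : ℕ) = 0) :
    ReflTransGen (StepR (gh n) (gu n) y) o p ↔ (p.1 : ℕ) * y.1 = p.2 := by
  constructor
  · intro h
    induction h with
    | refl => rw [ho, ho', zero_mul]
    | tail _ hs ih =>
      have h1 := (stepR_grid _ _ _ hy).1 hs
      rw [← h1.1, ← h1.2, ← ih, Nat.succ_mul]
  · intro h
    have key : ∀ d : ℕ, ∀ p : Fin n × Fin n, (p.1 : ℕ) = d → (p.1 : ℕ) * y.1 = p.2 →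
        ReflTransGen (StepR (gh n) (gu n) y) o p := by
      intro d
      induction d with
      | zero =>
        intro p h1 h2
        rw [h1, zero_mul] at h2
        have : o = p := ext20 (by omega) (by omega)
        rw [this]
      | succ d ih =>
        intro p h1 h2
        have hlt := p.1.is_lt
        have hlt' := p.2.is_lt
        have h3 : d * (y.1 : ℕ) + y.1 = p.2 := by
          rw [← h2, h1, Nat.succ_mul]
        refine ReflTransGen.tail (ih (⟨d, by omega⟩, ⟨d * (y.1 : ℕ), by omega⟩) rfl rfl)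
          ((stepR_grid _ _ _ hy).2 ⟨?_, ?_⟩)
        · show d + 1 = (p.1 : ℕ)
          omega
        · show d * (y.1 : ℕ) + y.1 = p.2
          exact h3
    exact key _ p rfl h

lemma mulR_grid (x y z : Fin n × Fin n) : MulR (gh n) (gu n) x y z ↔
    (x.2 : ℕ) = 0 ∧ (y.2 : ℕ) = 0 ∧ (z.2 : ℕ) = 0 ∧ (x.1 : ℕ) * y.1 = z.1 := by
  unfold MulR
  simp only [src_gu, src_gh, col_grid, row_grid]
  constructor
  · rintro ⟨h1, h2, h3, o, p, h4, h5, h6, h7, h8⟩
    rw [rtg_step y o p h2 h5 h4] at h8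
    refine ⟨h1, h2, h3, ?_⟩
    rw [h6.1, h7.1]
    exact h8
  · rintro ⟨h1, h2, h3, h4⟩
    have hlt := x.1.is_lt
    have h0 : 0 < n := by omega
    refine ⟨h1, h2, h3, (⟨0, h0⟩, ⟨0, h0⟩), (x.1, z.1), rfl, rfl, ⟨rfl, h1⟩, ⟨rfl, h3⟩, ?_⟩
    exact (rtg_step y _ _ h2 rfl rfl).2 h4

end grid

end Pool.Agent.Helper20.EX2
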