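import Pool.Agent.Helper20.EX2.Grid

/-!
# Axioms of the square grids
-/

set_option autoImplicit false

namespace Pool.Agent.Helper20.EX2

open Relation

/-- the axioms; `o` is the lower left corner, `t` the upper right one -/
structure GridAx {V : Type} (h u : V → V → Prop) : Prop where
  hf : ∀ x y y', h x y → h x y' → y = y'
  hi : ∀ x x' y, h x y → h x' y → x = x'
  uf : ∀ x y y', u x y → u x y' → y = y'
  ui : ∀ x x' y, u x y → u x' y → x = x'
  c1 : ∀ x y z, h x y → u y z → ∃ w, u x w ∧ h w z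
  c2 : ∀ x y w, h x y → u x w → ∃ z, u y z ∧ h w z
  c3 : ∀ x w z, u x w → h w z → ∃ y, h x y ∧ u y z
  c4 : ∀ x w, Src h x → u x w → Src h w
  cor : ∃ o, Src h o ∧ Src u o ∧ (∀ x, ReflTransGen (fun a b => h a b ∨ u a b) o x) ∧
    ∃ t, ReflTransGen (fun a b => ∃ w, h a w ∧ u w b) o t ∧ (∀ y, ¬ h t y) ∧ ∀ y, ¬ u t y

/-- `n` steps -/
def It {V : Type} (r : V → V → Prop) : ℕ → V → V → Prop
  | 0, x, y => x = y
  | n + 1, x, y => ∃ z, It r n x z ∧ r z y

/-- `x` has the coordinates `i`, `j` -/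
def At {V : Type} (h u : V → V → Prop) (o : V) (i j : ℕ) (x : V) : Prop :=
  ∃ y, It u j o y ∧ It h i y x

section dec

variable {V : Type} {h u : V → V → Prop} (H : GridAx h u) {o : V}

lemma It.func {r : V → V → Prop} (hr : ∀ x y y', r x y → r x y' → y = y') {n : ℕ} :
    ∀ {x y y' : V}, It r n x y → It r n x y' → y = y' := by
  induction n with
  | zero =>
    intro x y y' h1 h2
    exact h1.symm.trans h2
  | succ n ih =>
    rintro x y y' ⟨z, h1, h2⟩ ⟨z', h3, h4⟩
    obtain rfl := ih h1 h3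
    exact hr _ _ _ h2 h4

/-- If two elements without predecessor reach the same element then the numbers of steps are equal, and
the elements. -/
lemma It.src {r : V → V → Prop} (hr : ∀ x x' y, r x y → r x' y → x = x') {n : ℕ} :
    ∀ {m : ℕ} {x x' y : V}, Src r x → Src r x' → It r n x y → It r m x' y → n = m ∧ x = x' := by
  induction n with
  | zero =>
    intro m x x' y hx hx' h1 h2
    obtain rfl : x = y := h1
    cases m with
    | zero => exact ⟨rfl, Eq.symm h2⟩
    | succ m =>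
      obtain ⟨z, h3, h4⟩ := h2
      exact absurd h4 (hx z)
  | succ n ih =>
    intro m x x' y hx hx' h1 h2
    obtain ⟨z, h3, h4⟩ := h1
    cases m with
    | zero =>
      obtain rfl : x' = y := h2
      exact absurd h4 (hx' z)
    | succ m =>
      obtain ⟨z', h5, h6⟩ := h2
      obtain rfl := hr _ _ _ h4 h6
      obtain ⟨h7, h8⟩ := ih hx hx' h3 h5
      exact ⟨by rw [h7], h8⟩

include H in
lemma src_col (ho : Src h o) {j : ℕ} : ∀ {y : V}, It u j o y → Src h y := by
  induction j with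
  | zero =>
    intro y hy
    obtain rfl : o = y := hy
    exact ho
  | succ j ih =>
    rintro y ⟨z, h1, h2⟩
    exact H.c4 z y (ih h1) h2

include H in
lemma At.func {i j : ℕ} {x x' : V} (h1 : At h u o i j x) (h2 : At h u o i j x') : x = x' := by
  obtain ⟨y, h3, h4⟩ := h1
  obtain ⟨y', h5, h6⟩ := h2
  obtain rfl := It.func H.uf h3 h5
  exact It.func H.hf h4 h6

include H in
lemma At.inj (ho : Src h o) (ho' : Src u o) {i j i' j' : ℕ} {x : V} (h1 : At h u o i j x)
    (h2 : At h u o i' j' x) : i = i' ∧ j = j' := by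
  obtain ⟨y, h3, h4⟩ := h1
  obtain ⟨y', h5, h6⟩ := h2
  obtain ⟨h7, rfl⟩ := It.src H.hi (src_col H ho h3) (src_col H ho h5) h4 h6
  exact ⟨h7, (It.src H.ui ho' ho' h3 h5).1⟩

lemma At.right {i j : ℕ} {x y : V} (h1 : At h u o i j x) (h2 : h x y) : At h u o (i + 1) j y := by
  obtain ⟨z, h3, h4⟩ := h1
  exact ⟨z, h3, x, h4, h2⟩

include H in
lemma At.up {i j : ℕ} : ∀ {x y : V}, At h u o i j x → u x y → At h u o i (j + 1) y := by
  induction i with
  | zero =>
    rintro x y ⟨z, h3, h4⟩ h2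
    obtain rfl : z = x := h4
    exact ⟨y, ⟨z, h3, h2⟩, rfl⟩
  | succ i ih =>
    rintro x y ⟨z, h3, x', h4, h5⟩ h2
    obtain ⟨w, h6, h7⟩ := H.c1 x' x y h5 h2
    exact (ih ⟨z, h3, h4⟩ h6).right h7

include H in
lemma At.total (ho : ∀ x, ReflTransGen (fun a b => h a b ∨ u a b) o x) (x : V) :
    ∃ i j, At h u o i j x := by
  have h1 := ho x
  induction h1 with
  | refl => exact ⟨0, 0, o, rfl, rfl⟩
  | tail _ hs ih =>
    obtain ⟨i, j, h2⟩ := ih
    rcases hs with hs | hs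
    · exact ⟨i + 1, j, h2.right hs⟩
    · exact ⟨i, j + 1, h2.up H hs⟩

lemma At.left {i j : ℕ} {x : V} (h1 : At h u o (i + 1) j x) : ∃ x', At h u o i j x' ∧ h x' x := by
  obtain ⟨z, h3, x', h4, h5⟩ := h1
  exact ⟨x', ⟨z, h3, h4⟩, h5⟩

include H in
lemma At.down {i j : ℕ} : ∀ {x : V}, At h u o i (j + 1) x → ∃ x', At h u o i j x' ∧ u x' x := by
  induction i with
  | zero =>
    rintro x ⟨z, ⟨w, h3, h4⟩, h5⟩
    obtain rfl : z = x := h5
    exact ⟨w, ⟨w, h3, rfl⟩, h4⟩
  | succ i ih =>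
    intro x h1
    obtain ⟨x', h2, h3⟩ := h1.left
    obtain ⟨w, h4, h5⟩ := ih h2
    obtain ⟨y, h6, h7⟩ := H.c3 w x' x h5 h3
    exact ⟨y, h4.right h6, h7⟩

lemma At.le_left {i j k : ℕ} {x : V} (h1 : At h u o (i + k) j x) : ∃ x', At h u o i j x' := by
  induction k generalizing x with
  | zero => exact ⟨x, h1⟩
  | succ k ih =>
    obtain ⟨y, h2, _⟩ := At.left (i := i + k) h1
    exact ih h2

include H in
lemma At.le_down {i j k : ℕ} {x : V} (h1 : At h u o i (j + k) x) : ∃ x', At h u o i j x' := by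
  induction k generalizing x with
  | zero => exact ⟨x, h1⟩
  | succ k ih =>
    obtain ⟨y, h2, _⟩ := At.down H (j := j + k) h1
    exact ih h2

include H in
/-- the domain of the coordinates is closed downwards -/
lemma At.le {i j i' j' : ℕ} (hi : i' ≤ i) (hj : j' ≤ j) {x : V} (h1 : At h u o i j x) :
    ∃ x', At h u o i' j' x' := by
  obtain ⟨k, rfl⟩ := Nat.exists_eq_add_of_le hi
  obtain ⟨l, rfl⟩ := Nat.exists_eq_add_of_le hj
  obtain ⟨y, h2⟩ := h1.le_left
  exact h2.le_down H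

include H in
/-- the domain is a rectangle -/
lemma At.rect {i j : ℕ} {y : V} (h2 : At h u o (i + 1) 0 y) :
    ∀ {x : V}, At h u o i j x → ∃ z, At h u o (i + 1) j z := by
  induction j with
  | zero => exact fun _ => ⟨y, h2⟩
  | succ j ih =>
    intro x h1
    obtain ⟨x', h3, h4⟩ := h1.down H
    obtain ⟨z, h5⟩ := ih h3
    obtain ⟨x'', h6, h7⟩ := h5.left
    obtain rfl := h6.func H h3
    obtain ⟨w, h8, h9⟩ := H.c2 x'' z x h7 h4
    exact ⟨w, h5.up H h8⟩

include H in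
lemma At.rect' {i j : ℕ} : ∀ {x y : V}, At h u o i 0 x → At h u o 0 j y → ∃ z, At h u o i j z := by
  induction i with
  | zero => exact fun _ h2 => ⟨_, h2⟩
  | succ i ih =>
    intro x y h1 h2
    obtain ⟨x', h3, _⟩ := h1.left
    obtain ⟨z, h4⟩ := ih h3 h2
    exact At.rect H h1 h4

end dec

/-- the structures with the axioms are the square grids -/
theorem GridAx.exists_equiv {V : Type} {h u : V → V → Prop} (H : GridAx h u) :
    ∃ (n : ℕ) (_ : 1 ≤ n) (e : V ≃ Fin n × Fin n), (∀ x y, h x y ↔ gh n (e x) (e y)) ∧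
      ∀ x y, u x y ↔ gu n (e x) (e y) := by
  obtain ⟨o, ho, ho', htot, t, ht, hth, htu⟩ := H.cor
  obtain ⟨s, hs⟩ : ∃ s, At h u o s s t := by
    clear hth htu
    induction ht with
    | refl => exact ⟨0, o, rfl, rfl⟩
    | tail _ hst ih =>
      obtain ⟨s, hs⟩ := ih
      obtain ⟨w, h1, h2⟩ := hst
      exact ⟨s + 1, (hs.right h1).up H h2⟩
  have hdom : ∀ i j x, At h u o i j x → i ≤ s ∧ j ≤ s := by
    intro i j x hx
    have h0 : ∃ y, At h u o s 0 y := hs.le H le_rfl (Nat.zero_le _)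
    have h0' : ∃ y, At h u o 0 s y := hs.le H (Nat.zero_le _) le_rfl
    constructor
    · by_contra hcon
      obtain ⟨y, hy⟩ : ∃ y, At h u o (s + 1) 0 y := hx.le H (by omega) (Nat.zero_le _)
      obtain ⟨y', hy'⟩ := h0'
      obtain ⟨z, hz⟩ := hy.rect' H hy'
      obtain ⟨z', hz', hzz⟩ := hz.left
      obtain rfl := hz'.func H hs
      exact hth z hzz
    · by_contra hcon
      obtain ⟨y, hy⟩ : ∃ y, At h u o 0 (s + 1) y := hx.le H (Nat.zero_le _) (by omega)
      obtain ⟨y', hy'⟩ := h0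
      obtain ⟨z, hz⟩ := hy'.rect' H hy
      obtain ⟨z', hz', hzz⟩ := hz.down H
      obtain rfl := hz'.func H hs
      exact htu z hzz
  have hex : ∀ p : Fin (s + 1) × Fin (s + 1), ∃ x, At h u o p.1 p.2 x := fun p =>
    hs.le H (by have := p.1.is_lt; omega) (by have := p.2.is_lt; omega)
  choose f hf using hex
  have hfb : Function.Bijective f := by
    constructor
    · intro p q hpq
      have h1 := hf q
      rw [← hpq] at h1
      have h2 := (hf p).inj H ho ho' h1
      exact ext20 h2.1 h2.2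
    · intro x
      obtain ⟨i, j, hx⟩ := At.total H htot x
      have h1 := hdom i j x hx
      exact ⟨(⟨i, by omega⟩, ⟨j, by omega⟩), (hf _).func H hx⟩
  let e : Fin (s + 1) × Fin (s + 1) ≃ V := Equiv.ofBijective f hfb
  have he : ∀ p, e p = f p := fun p => rfl
  refine ⟨s + 1, by omega, e.symm, fun x y => ?_, fun x y => ?_⟩
  · obtain ⟨p, rfl⟩ := e.surjective x
    obtain ⟨q, rfl⟩ := e.surjective y
    rw [e.symm_apply_apply, e.symm_apply_apply, he, he]
    constructor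
    · intro h1
      exact ((hf p).right h1).inj H ho ho' (hf q)
    · rintro ⟨h1, h2⟩
      have h3 := hf q
      rw [← h1, ← h2] at h3
      obtain ⟨x', h4, h5⟩ := h3.left
      obtain rfl := h4.func H (hf p)
      exact h5
  · obtain ⟨p, rfl⟩ := e.surjective x
    obtain ⟨q, rfl⟩ := e.surjective y
    rw [e.symm_apply_apply, e.symm_apply_apply, he, he]
    constructor
    · intro h1
      exact ((hf p).up H h1).inj H ho ho' (hf q)
    · rintro ⟨h1, h2⟩
      have h3 := hf q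
      rw [← h1, ← h2] at h3
      obtain ⟨x', h4, h5⟩ := h3.down H
      obtain rfl := h4.func H (hf p)
      exact h5

/-- the square grids satisfy the axioms -/
theorem gridAx_grid {n : ℕ} (hn : 1 ≤ n) : GridAx (gh n) (gu n) where
  hf := fun x y y' h1 h2 => ext20 (h1.1.symm.trans h2.1) (h1.2.symm.trans h2.2)
  hi := fun x x' y h1 h2 => ext20 (by have := h1.1; have := h2.1; omega) (h1.2.trans h2.2.symm)
  uf := fun x y y' h1 h2 => ext20 (h1.1.symm.trans h2.1) (h1.2.symm.trans h2.2)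
  ui := fun x x' y h1 h2 => ext20 (h1.1.trans h2.1.symm) (by have := h1.2; have := h2.2; omega)
  c1 := fun x y z h1 h2 => ⟨(x.1, z.2), ⟨rfl, h1.2 ▸ h2.2⟩, ⟨h1.1.trans h2.1, rfl⟩⟩
  c2 := fun x y w h1 h2 => ⟨(y.1, w.2),
    ⟨rfl, show (y.2 : ℕ) + 1 = w.2 by have := h1.2; have := h2.2; omega⟩,
    ⟨show (w.1 : ℕ) + 1 = y.1 by have := h1.1; have := h2.1; omega, rfl⟩⟩
  c3 := fun x w z h1 h2 => ⟨(z.1, x.2),
    ⟨show (x.1 : ℕ) + 1 = z.1 by have := h1.1; have := h2.1; omega, rfl⟩,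
    ⟨rfl, show (x.2 : ℕ) + 1 = z.2 by have := h1.2; have := h2.2; omega⟩⟩
  c4 := fun x w h1 h2 => by
    rw [src_gh] at h1 ⊢
    rw [← h2.1]
    exact h1
  cor := by
    have h0 : 0 < n := hn
    refine ⟨(⟨0, h0⟩, ⟨0, h0⟩), (src_gh _).2 rfl, (src_gu _).2 rfl, fun x => ?_,
      (⟨n - 1, by omega⟩, ⟨n - 1, by omega⟩), ?_, ?_, ?_⟩
    · have h1 : ReflTransGen (gh n) (⟨0, h0⟩, ⟨0, h0⟩) (x.1, ⟨0, h0⟩) :=
        (rtg_gh _ _).2 ⟨Nat.zero_le _, rfl⟩
      have h2 : ReflTransGen (gu n) (x.1, ⟨0, h0⟩) x := (rtg_gu _ _).2 ⟨rfl, Nat.zero_le _⟩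
      exact ReflTransGen.trans (ReflTransGen.mono (fun _ _ h => Or.inl h) _ _ h1)
        (ReflTransGen.mono (fun _ _ h => Or.inr h) _ _ h2)
    · have key : ∀ d : ℕ, ∀ hd : d < n, ReflTransGen (fun a b => ∃ w, gh n a w ∧ gu n w b)
          ((⟨0, h0⟩, ⟨0, h0⟩) : Fin n × Fin n) (⟨d, hd⟩, ⟨d, hd⟩) := by
        intro d
        induction d with
        | zero => exact fun _ => ReflTransGen.refl
        | succ d ih =>
          intro hd
          exact ReflTransGen.tail (ih (by omega)) ⟨(⟨d + 1, hd⟩, ⟨d, by omega⟩), ⟨rfl, rfl⟩, rfl, rfl⟩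
      exact key _ _
    · rintro y ⟨h1, _⟩
      have h2 : n - 1 + 1 = (y.1 : ℕ) := h1
      have := y.1.is_lt
      omega
    · rintro y ⟨_, h1⟩
      have h2 : n - 1 + 1 = (y.2 : ℕ) := h1
      have := y.2.is_lt
      omega

end Pool.Agent.Helper20.EX2
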