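import Pool.Agent.Helper20.EX2.MDef

/-!
# Relativisation of formulas with set quantifiers to a definable set
-/

set_option autoImplicit false

namespace Pool.Agent.Helper20.EX2

open FirstOrder FirstOrder.Language Pool.Agent.Helper20.Spectra Pool.Agent.Helper20.OP
open Pool.Agent.Helper14.SS (SFm)

namespace MDef

variable {b r m : ℕ}

lemma allFinset {γ : Type} (s : Finset γ)
    {P : γ → ∀ V : Type, Str b V → (Fin r → V) → (Fin m → Set V) → Prop}
    (h : ∀ c ∈ s, MDef b r m (P c)) : MDef b r m (fun V R v S => ∀ c ∈ s, P c V R v S) := by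
  classical
  induction s using Finset.induction_on with
  | empty => exact (MDef.const True).congr (fun V R v S => by simp)
  | insert c s hc ih =>
    refine ((h c (Finset.mem_insert_self c s)).and
      (ih (fun d hd => h d (Finset.mem_insert_of_mem hd)))).congr (fun V R v S => ?_)
    simp only [Finset.forall_mem_insert]

lemma allFin {γ : Type} [Finite γ]
    {P : γ → ∀ V : Type, Str b V → (Fin r → V) → (Fin m → Set V) → Prop}
    (h : ∀ c, MDef b r m (P c)) : MDef b r m (fun V R v S => ∀ c, P c V R v S) := by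
  have := Fintype.ofFinite γ
  exact (allFinset Finset.univ (fun c _ => h c)).congr (fun V R v S => by simp)

lemma allLast {P : ∀ V : Type, Str b V → (Fin r → V) → (Fin m → Set V) → V → Prop}
    (h : MDef b (r + 1) m (fun V R w S => P V R (fun i => w i.castSucc) S (w (Fin.last r)))) :
    MDef b r m (fun V R v S => ∀ x, P V R v S x) := by
  refine MDef.all ?_
  refine (h.sub (m' := m) (Fin.snoc Fin.succ 0 : Fin (r + 1) → Fin (r + 1)) id).congr
    (fun V R w S => ?_)
  have e1 : (fun i : Fin r => (w ∘ (Fin.snoc Fin.succ 0 : Fin (r + 1) → Fin (r + 1))) i.castSucc) =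
      Fin.tail w := by
    funext i
    show w ((Fin.snoc Fin.succ 0 : Fin (r + 1) → Fin (r + 1)) i.castSucc) = w i.succ
    rw [Fin.snoc_castSucc]
  have e2 : (w ∘ (Fin.snoc Fin.succ 0 : Fin (r + 1) → Fin (r + 1))) (Fin.last r) = w 0 := by
    show w ((Fin.snoc Fin.succ 0 : Fin (r + 1) → Fin (r + 1)) (Fin.last r)) = w 0
    rw [Fin.snoc_last]
  rw [e1, e2]
  exact Iff.rfl

end MDef

private lemma term_var20 {ι : Type} {ar : ι → ℕ} {α : Type} (t : (RelLang ι ar).Term α) :
    ∃ i : α, t = Term.var i := by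
  cases t with
  | var x => exact ⟨x, rfl⟩
  | func f _ => exact Empty.elim f

/-- the position of a variable -/
def idx (k n : ℕ) : Fin k ⊕ Fin n → Fin (k + n) := Sum.elim (Fin.castAdd n) (Fin.natAdd k)

private theorem relat_fo {ι : Type} {ar : ι → ℕ} {b : ℕ}
    {Z : ∀ V : Type, Str b V → V → Prop} (hZ : MD b 1 (fun V R v => Z V R (v 0)))
    {ρ : ∀ s : ι, ∀ V : Type, Str b V → (Fin (ar s) → V) → Prop}
    (hρ : ∀ s, MD b (ar s) (fun V R v => ρ s V R v)) {k n m : ℕ}
    (φ : (RelLang ι ar).BoundedFormula (Fin k) n) :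
    MDef b (k + n) m (fun V R w _ => ∀ h : ∀ i, Z V R (w i),
      @BoundedFormula.Realize _ {x // Z V R x} (mkS (fun s u => ρ s V R (fun i => (u i).1))) _ _ φ
        (fun i => ⟨w (Fin.castAdd n i), h _⟩) (fun i => ⟨w (Fin.natAdd k i), h _⟩)) := by
  have hdom : ∀ j : ℕ, MDef b j m (fun V R v _ => ∀ i : Fin j, Z V R (v i)) := fun j =>
    MDef.allFin (fun i => (hZ.app (m' := m) (fun _ => i)))
  induction φ with
  | @falsum n => exact ((hdom (k + n)).imp (MDef.const False)).congr fun V R v S => Iff.rfl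
  | @equal n t₁ t₂ =>
    obtain ⟨z₁, rfl⟩ := term_var20 t₁
    obtain ⟨z₂, rfl⟩ := term_var20 t₂
    refine ((hdom (k + n)).imp (MDef.eq (idx k n z₁) (idx k n z₂))).congr fun V R w S => ?_
    refine forall_congr' fun h => ?_
    rcases z₁ with i | i <;> rcases z₂ with j | j <;> exact Subtype.ext_iff
  | @rel n l r ts =>
    obtain ⟨s, hs⟩ := r
    subst hs
    choose z hz using fun i => term_var20 (ts i)
    refine ((hdom (k + n)).imp ((hρ s).app (m' := m) (fun i => idx k n (z i)))).congr
      fun V R w S => ?_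
    refine forall_congr' fun h => ?_
    let _ := mkS (fun s (u : Fin (ar s) → {x // Z V R x}) => ρ s V R (fun i => (u i).1))
    have hh : (fun i : Fin (ar s) => (((ts i).realize (Sum.elim
        (fun i => (⟨w (Fin.castAdd n i), h _⟩ : {x // Z V R x}))
        (fun i => (⟨w (Fin.natAdd k i), h _⟩ : {x // Z V R x}))) : {x // Z V R x})).1) =
        w ∘ (fun i => idx k n (z i)) := by
      funext i
      rw [hz i]
      show (Sum.elim (fun i => (⟨w (Fin.castAdd n i), h _⟩ : {x // Z V R x}))
        (fun i => (⟨w (Fin.natAdd k i), h _⟩ : {x // Z V R x})) (z i)).1 = w (idx k n (z i))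
      rcases z i with j | j <;> rfl
    show ρ s V R (fun i : Fin (ar s) => (((ts i).realize (Sum.elim
        (fun i => (⟨w (Fin.castAdd n i), h _⟩ : {x // Z V R x}))
        (fun i => (⟨w (Fin.natAdd k i), h _⟩ : {x // Z V R x}))) : {x // Z V R x})).1) ↔ _
    rw [hh]
  | @imp n φ ψ ih₁ ih₂ =>
    refine ((hdom (k + n)).imp (ih₁.imp ih₂)).congr fun V R w S => ?_
    constructor
    · intro H h H1 h'
      exact H h (H1 h)
    · intro H h H1
      exact H h (fun _ => H1) h
  | @all n φ ih =>
    have h1 : MDef b (k + n) m (fun V R w _ => ∀ x : V,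
        ∀ h : ∀ i, Z V R ((Fin.snoc w x : Fin (k + n + 1) → V) i),
        @BoundedFormula.Realize _ {x // Z V R x}
          (mkS (fun s u => ρ s V R (fun i => (u i).1))) _ _ φ
          (fun i => ⟨(Fin.snoc w x : Fin (k + n + 1) → V) (Fin.castAdd (n + 1) i), h _⟩)
          (fun i => ⟨(Fin.snoc w x : Fin (k + n + 1) → V) (Fin.natAdd k i), h _⟩)) := by
      refine MDef.allLast (m := m) (r := k + n) ?_
      refine ih.congr fun V R w S => ?_
      have h2 : (Fin.snoc (fun i : Fin (k + n) => w i.castSucc) (w (Fin.last (k + n))) :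
          Fin (k + n + 1) → V) = w := Fin.snoc_init_self w
      rw [h2]
      exact Iff.rfl
    refine h1.congr fun V R w S => ?_
    have key1 : ∀ (h : ∀ i, Z V R (w i)) (x : V)
        (h' : ∀ i, Z V R ((Fin.snoc w x : Fin (k + n + 1) → V) i)),
        (fun i : Fin k => (⟨(Fin.snoc w x : Fin (k + n + 1) → V) (Fin.castAdd (n + 1) i), h' _⟩ :
          {x // Z V R x})) = fun i => ⟨w (Fin.castAdd n i), h _⟩ := by
      intro h x h'
      funext i
      apply Subtype.ext
      show (Fin.snoc w x : Fin (k + n + 1) → V) ((Fin.castAdd n i).castSucc) = _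
      rw [Fin.snoc_castSucc]
    have key2 : ∀ (h : ∀ i, Z V R (w i)) (x : V) (hx : Z V R x)
        (h' : ∀ i, Z V R ((Fin.snoc w x : Fin (k + n + 1) → V) i)),
        (Fin.snoc (fun i : Fin n => (⟨w (Fin.natAdd k i), h _⟩ : {x // Z V R x})) ⟨x, hx⟩ :
          Fin (n + 1) → {x // Z V R x}) =
          fun i => ⟨(Fin.snoc w x : Fin (k + n + 1) → V) (Fin.natAdd k i), h' _⟩ := by
      intro h x hx h'
      funext i
      apply Subtype.ext
      refine Fin.lastCases ?_ (fun j => ?_) i
      · show _ = (Fin.snoc w x : Fin (k + n + 1) → V) (Fin.last (k + n))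
        rw [Fin.snoc_last, Fin.snoc_last]
      · show _ = (Fin.snoc w x : Fin (k + n + 1) → V) ((Fin.natAdd k j).castSucc)
        rw [Fin.snoc_castSucc, Fin.snoc_castSucc]
    constructor
    · intro H x h'
      have h : ∀ i, Z V R (w i) := fun i => by
        have := h' i.castSucc
        rwa [Fin.snoc_castSucc] at this
      have hx : Z V R x := by
        have := h' (Fin.last (k + n))
        rwa [Fin.snoc_last] at this
      have := H h ⟨x, hx⟩
      rw [key2 h x hx h', ← key1 h x h'] at this
      exact this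
    · intro H h x
      obtain ⟨x, hx⟩ := x
      have h' : ∀ i, Z V R ((Fin.snoc w x : Fin (k + n + 1) → V) i) := by
        intro i
        refine Fin.lastCases ?_ (fun j => ?_) i
        · rw [Fin.snoc_last]; exact hx
        · rw [Fin.snoc_castSucc]; exact h j
      rw [key2 h x hx h', ← key1 h x h']
      exact H x h'

/-- relativisation to the definable set `Z`, with definable relations `ρ` -/
theorem mdef_relat {ι : Type} {ar : ι → ℕ} {b : ℕ}
    {Z : ∀ V : Type, Str b V → V → Prop} (hZ : MD b 1 (fun V R v => Z V R (v 0)))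
    {ρ : ∀ s : ι, ∀ V : Type, Str b V → (Fin (ar s) → V) → Prop}
    (hρ : ∀ s, MD b (ar s) (fun V R v => ρ s V R v)) {k m : ℕ} (φ : SFm (RelLang ι ar) k m) :
    MDef b k m (fun V R v S => ∀ h : ∀ i, Z V R (v i),
      @Sat _ {x // Z V R x} (mkS (fun s u => ρ s V R (fun i => (u i).1))) k m φ
        (fun i => ⟨v i, h i⟩) (fun j => {x | x.1 ∈ S j})) := by
  have hdom : ∀ j m : ℕ, MDef b j m (fun V R v _ => ∀ i : Fin j, Z V R (v i)) := fun j m =>
    MDef.allFin (fun i => (hZ.app (m' := m) (fun _ => i)))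
  induction φ with
  | @fo k m φ =>
    refine (relat_fo (m := m) hZ hρ φ).congr fun V R v S => ?_
    refine forall_congr' fun h => ?_
    let _ := mkS (fun s (u : Fin (ar s) → {x // Z V R x}) => ρ s V R (fun i => (u i).1))
    show BoundedFormula.Realize φ (fun i => (⟨v i, h i⟩ : {x // Z V R x})) default ↔ _
    have e : (default : Fin 0 → {x // Z V R x}) = fun i => ⟨v (Fin.natAdd k i), h _⟩ :=
      Subsingleton.elim _ _
    rw [e]
    exact Iff.rfl
  | @mem k m i j =>
    exact ((hdom k m).imp (MDef.mem i j)).congr fun V R v S => Iff.rfl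
  | @not k m φ ih =>
    refine ((hdom k m).imp ih.not).congr fun V R v S => ?_
    constructor
    · intro H h H1
      exact H h (H1 h)
    · intro H h H1
      exact H h (fun _ => H1)
  | @and k m φ ψ ih ih' =>
    refine (ih.and ih').congr fun V R v S => ?_
    constructor
    · intro H
      exact ⟨fun h => (H h).1, fun h => (H h).2⟩
    · intro H h
      exact ⟨H.1 h, H.2 h⟩
  | @ex k m φ ih =>
    have h1 : MDef b k m (fun V R v S => ∃ x : V, Z V R x ∧
        ∀ h : ∀ i, Z V R ((Fin.cons x v : Fin (k + 1) → V) i),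
        @Sat _ {x // Z V R x} (mkS (fun s u => ρ s V R (fun i => (u i).1))) (k + 1) m φ
        (fun i => ⟨(Fin.cons x v : Fin (k + 1) → V) i, h i⟩) (fun j => {x | x.1 ∈ S j})) := by
      refine MDef.ex ?_
      refine ((hZ.app (m' := m) (fun _ => 0)).and ih).congr fun V R w S => ?_
      have e : (Fin.cons (w 0) (Fin.tail w) : Fin (k + 1) → V) = w := Fin.cons_self_tail w
      rw [e]
      exact Iff.rfl
    refine ((hdom k m).imp h1).congr fun V R v S => ?_
    refine forall_congr' fun h => ?_
    have key : ∀ (x : V) (hx : Z V R x)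
        (h' : ∀ i, Z V R ((Fin.cons x v : Fin (k + 1) → V) i)),
        (Fin.cons (⟨x, hx⟩ : {x // Z V R x}) (fun i => (⟨v i, h i⟩ : {x // Z V R x})) :
          Fin (k + 1) → {x // Z V R x}) =
          fun i => ⟨(Fin.cons x v : Fin (k + 1) → V) i, h' i⟩ := by
      intro x hx h'
      funext i
      refine Fin.cases ?_ (fun j => ?_) i <;> rfl
    constructor
    · rintro ⟨⟨x, hx⟩, H⟩
      refine ⟨x, hx, fun h' => ?_⟩
      rw [key x hx h'] at H
      exact H
    · rintro ⟨x, hx, H⟩
      have h' : ∀ i, Z V R ((Fin.cons x v : Fin (k + 1) → V) i) := by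
        intro i
        refine Fin.cases ?_ (fun j => ?_) i
        · exact hx
        · exact h j
      refine ⟨⟨x, hx⟩, ?_⟩
      rw [key x hx h']
      exact H h'
  | @exSet k m φ ih =>
    have h1 : MDef b k m (fun V R v S => ∃ X : Set V, ∀ h : ∀ i, Z V R (v i),
        @Sat _ {x // Z V R x} (mkS (fun s u => ρ s V R (fun i => (u i).1))) k (m + 1) φ
        (fun i => ⟨v i, h i⟩) (fun j => {x | x.1 ∈ (Fin.cons X S : Fin (m + 1) → Set V) j})) := by
      refine MDef.exS ?_
      refine ih.congr fun V R w S => ?_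
      have e : (Fin.cons (S 0) (Fin.tail S) : Fin (m + 1) → Set V) = S := Fin.cons_self_tail S
      rw [e]
    refine ((hdom k m).imp h1).congr fun V R v S => ?_
    have key : ∀ (Y : Set V), (Fin.cons {x : {x // Z V R x} | x.1 ∈ Y}
        (fun j => {x : {x // Z V R x} | x.1 ∈ S j}) : Fin (m + 1) → Set {x // Z V R x}) =
        fun j => {x | x.1 ∈ (Fin.cons Y S : Fin (m + 1) → Set V) j} := by
      intro Y
      funext j
      refine Fin.cases ?_ (fun j => ?_) j <;> rfl
    constructor
    · intro H h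
      obtain ⟨X, hX⟩ := H h
      refine ⟨Subtype.val '' X, fun _ => ?_⟩
      rw [← key]
      have e : {x : {x // Z V R x} | x.1 ∈ Subtype.val '' X} = X := by
        ext x
        exact Subtype.val_injective.mem_set_image
      rw [e]
      exact hX
    · intro H h
      obtain ⟨Y, hY⟩ := H h
      refine ⟨{x | x.1 ∈ Y}, ?_⟩
      rw [key]
      exact hY h

end Pool.Agent.Helper20.EX2
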