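import Pool.Agent.Helper20.EX2.GridAx
import Pool.Agent.Helper20.EX2.Rel

/-!
# The square grids with a property of `({0, ..., n - 1}, +, ·)` are definable
-/

set_option autoImplicit false
set_option linter.unusedVariables false

namespace Pool.Agent.Helper20.EX2

open FirstOrder FirstOrder.Language Pool.Agent.Helper20.Spectra Pool.Agent.Helper20.OP Relation
open Pool.Agent.Helper14.SS (SFm ArL arI)

section defs

variable {b : ℕ} (i0 i1 : Fin b)

lemma md_src (s : Fin b) : MD b 1 (fun V R v => Src (R s) (v 0)) :=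
  MDef.all (P := fun V R v _ x => ¬ R s x (v 0)) (MDef.rel s 0 1).not

lemma md_reach (s : Fin b) : MD b 2 (fun V R v => ReflTransGen (R s) (v 0) (v 1)) :=
  MDef.reach (P := fun V R _ => R s) (MDef.rel s 1 0) 0 1

lemma md_anti : MD b 2 (fun V R v => Anti (R i0) (R i1) (v 0) (v 1)) :=
  MDef.ex (P := fun V R v _ w => R i1 w (v 0) ∧ R i0 w (v 1))
    ((MDef.rel i1 0 1).and (MDef.rel i0 0 2))

lemma md_antiReach : MD b 2 (fun V R v => ReflTransGen (Anti (R i0) (R i1)) (v 0) (v 1)) :=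
  MDef.reach (r := 2) (P := fun V R _ => Anti (R i0) (R i1)) ((md_anti i0 i1).app ![1, 0]) 0 1

lemma md_col : MD b 2 (fun V R v => Col (R i1) (v 0) (v 1)) :=
  MDef.and ((md_src i1).app (fun _ => 1)) ((md_reach i1).app ![1, 0])

lemma md_row : MD b 2 (fun V R v => Row (R i0) (R i1) (v 0) (v 1)) :=
  MDef.and ((md_src i1).app (fun _ => 1))
    (MDef.ex (P := fun V R v _ y => Src (R i0) y ∧ ReflTransGen (R i0) y (v 0) ∧
      ReflTransGen (Anti (R i0) (R i1)) y (v 1))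
      (((md_src i0).app (fun _ => 0)).and (((md_reach i0).app ![0, 1]).and
        ((md_antiReach i0 i1).app ![0, 2]))))

lemma md_addR : MD b 3 (fun V R v => AddR (R i0) (R i1) (v 0) (v 1) (v 2)) :=
  MDef.and ((md_src i1).app (fun _ => 0)) (MDef.and ((md_src i1).app (fun _ => 1))
    (MDef.and ((md_src i1).app (fun _ => 2))
      (MDef.ex (P := fun V R v _ p => Col (R i1) p (v 0) ∧ Row (R i0) (R i1) p (v 1) ∧
        ReflTransGen (Anti (R i0) (R i1)) p (v 2))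
        (((md_col i1).app ![0, 1]).and (((md_row i0 i1).app ![0, 2]).and
          ((md_antiReach i0 i1).app ![0, 3]))))))

lemma md_stepR : MD b 3 (fun V R v => StepR (R i0) (R i1) (v 0) (v 1) (v 2)) := by
  refine MDef.ex (P := fun V R v _ ca => ∃ cb ra rb, Col (R i1) (v 1) ca ∧ Col (R i1) (v 2) cb ∧
    R i0 ca cb ∧ Row (R i0) (R i1) (v 1) ra ∧ Row (R i0) (R i1) (v 2) rb ∧
    AddR (R i0) (R i1) ra (v 0) rb) ?_
  refine MDef.ex (P := fun V R v _ cb => ∃ ra rb, Col (R i1) (v 2) (v 0) ∧ Col (R i1) (v 3) cb ∧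
    R i0 (v 0) cb ∧ Row (R i0) (R i1) (v 2) ra ∧ Row (R i0) (R i1) (v 3) rb ∧
    AddR (R i0) (R i1) ra (v 1) rb) ?_
  refine MDef.ex (P := fun V R v _ ra => ∃ rb, Col (R i1) (v 3) (v 1) ∧ Col (R i1) (v 4) (v 0) ∧
    R i0 (v 1) (v 0) ∧ Row (R i0) (R i1) (v 3) ra ∧ Row (R i0) (R i1) (v 4) rb ∧
    AddR (R i0) (R i1) ra (v 2) rb) ?_
  refine MDef.ex (P := fun V R v _ rb => Col (R i1) (v 4) (v 2) ∧ Col (R i1) (v 5) (v 1) ∧
    R i0 (v 2) (v 1) ∧ Row (R i0) (R i1) (v 4) (v 0) ∧ Row (R i0) (R i1) (v 5) rb ∧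
    AddR (R i0) (R i1) (v 0) (v 3) rb) ?_
  exact ((md_col i1).app ![5, 3]).and (((md_col i1).app ![6, 2]).and ((MDef.rel i0 3 2).and
    (((md_row i0 i1).app ![5, 1]).and (((md_row i0 i1).app ![6, 0]).and
      ((md_addR i0 i1).app ![1, 4, 0])))))

lemma md_mulR : MD b 3 (fun V R v => MulR (R i0) (R i1) (v 0) (v 1) (v 2)) := by
  refine MDef.and ((md_src i1).app (fun _ => 0)) (MDef.and ((md_src i1).app (fun _ => 1))
    (MDef.and ((md_src i1).app (fun _ => 2)) ?_))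
  refine MDef.ex (P := fun V R v _ o => ∃ p, Src (R i1) o ∧ Src (R i0) o ∧ Col (R i1) p (v 0) ∧
    Row (R i0) (R i1) p (v 2) ∧ ReflTransGen (StepR (R i0) (R i1) (v 1)) o p) ?_
  refine MDef.ex (P := fun V R v _ p => Src (R i1) (v 0) ∧ Src (R i0) (v 0) ∧
    Col (R i1) p (v 1) ∧ Row (R i0) (R i1) p (v 3) ∧
    ReflTransGen (StepR (R i0) (R i1) (v 2)) (v 0) p) ?_
  refine ((md_src i1).app (fun _ => 1)).and (((md_src i0).app (fun _ => 1)).and
    (((md_col i1).app ![0, 2]).and (((md_row i0 i1).app ![0, 4]).and ?_)))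
  exact MDef.reach (r := 5) (P := fun V R v => StepR (R i0) (R i1) (v 3))
    ((md_stepR i0 i1).app ![5, 1, 0]) 1 0

lemma md_gridAx : MD b 0 (fun V R _ => GridAx (R i0) (R i1)) := by
  have a1 : MDef b 0 0 (fun V R _ _ => ∀ x y y', R i0 x y → R i0 x y' → y = y') :=
    MDef.all (MDef.all (MDef.all ((MDef.rel i0 2 1).imp ((MDef.rel i0 2 0).imp (MDef.eq 1 0)))))
  have a2 : MDef b 0 0 (fun V R _ _ => ∀ x x' y, R i0 x y → R i0 x' y → x = x') :=
    MDef.all (MDef.all (MDef.all ((MDef.rel i0 2 0).imp ((MDef.rel i0 1 0).imp (MDef.eq 2 1)))))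
  have a3 : MDef b 0 0 (fun V R _ _ => ∀ x y y', R i1 x y → R i1 x y' → y = y') :=
    MDef.all (MDef.all (MDef.all ((MDef.rel i1 2 1).imp ((MDef.rel i1 2 0).imp (MDef.eq 1 0)))))
  have a4 : MDef b 0 0 (fun V R _ _ => ∀ x x' y, R i1 x y → R i1 x' y → x = x') :=
    MDef.all (MDef.all (MDef.all ((MDef.rel i1 2 0).imp ((MDef.rel i1 1 0).imp (MDef.eq 2 1)))))
  have a5 : MDef b 0 0 (fun V R _ _ => ∀ x y z, R i0 x y → R i1 y z → ∃ w, R i1 x w ∧ R i0 w z) :=
    MDef.all (MDef.all (MDef.all ((MDef.rel i0 2 1).imp ((MDef.rel i1 1 0).imp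
      (MDef.ex ((MDef.rel i1 3 0).and (MDef.rel i0 0 1)))))))
  have a6 : MDef b 0 0 (fun V R _ _ => ∀ x y w, R i0 x y → R i1 x w → ∃ z, R i1 y z ∧ R i0 w z) :=
    MDef.all (MDef.all (MDef.all ((MDef.rel i0 2 1).imp ((MDef.rel i1 2 0).imp
      (MDef.ex ((MDef.rel i1 2 0).and (MDef.rel i0 1 0)))))))
  have a7 : MDef b 0 0 (fun V R _ _ => ∀ x w z, R i1 x w → R i0 w z → ∃ y, R i0 x y ∧ R i1 y z) :=
    MDef.all (MDef.all (MDef.all ((MDef.rel i1 2 1).imp ((MDef.rel i0 1 0).imp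
      (MDef.ex ((MDef.rel i0 3 0).and (MDef.rel i1 0 1)))))))
  have a8 : MDef b 0 0 (fun V R _ _ => ∀ x w, Src (R i0) x → R i1 x w → Src (R i0) w) :=
    MDef.all (MDef.all (((md_src i0).app (fun _ => 1)).imp ((MDef.rel i1 1 0).imp
      ((md_src i0).app (fun _ => 0)))))
  have a9 : MDef b 0 0 (fun V R _ _ => ∃ o, Src (R i0) o ∧ Src (R i1) o ∧
      (∀ x, ReflTransGen (fun a b => R i0 a b ∨ R i1 a b) o x) ∧
      ∃ t, ReflTransGen (fun a b => ∃ w, R i0 a w ∧ R i1 w b) o t ∧ (∀ y, ¬ R i0 t y) ∧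
        ∀ y, ¬ R i1 t y) := by
    refine MDef.ex (((md_src i0).app (fun _ => 0)).and (((md_src i1).app (fun _ => 0)).and
      (MDef.and (MDef.all ?_) (MDef.ex (MDef.and ?_ (MDef.and (MDef.all (MDef.rel i0 1 0).not)
        (MDef.all (MDef.rel i1 1 0).not)))))))
    · exact MDef.reach (r := 2) (P := fun V R _ a b => R i0 a b ∨ R i1 a b)
        ((MDef.rel i0 1 0).or (MDef.rel i1 1 0)) 1 0
    · exact MDef.reach (r := 2) (P := fun V R _ a b => ∃ w, R i0 a w ∧ R i1 w b)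
        (MDef.ex ((MDef.rel i0 2 0).and (MDef.rel i1 0 1))) 1 0
  refine (a1.and (a2.and (a3.and (a4.and (a5.and (a6.and (a7.and (a8.and a9)))))))).congr
    fun V R v S => ?_
  constructor
  · rintro ⟨h1, h2, h3, h4, h5, h6, h7, h8, h9⟩
    exact ⟨h1, h2, h3, h4, h5, h6, h7, h8, h9⟩
  · rintro ⟨h1, h2, h3, h4, h5, h6, h7, h8, h9⟩
    exact ⟨h1, h2, h3, h4, h5, h6, h7, h8, h9⟩

end defs

/-- addition and multiplication on the lowest row -/
def ArRel {V : Type} (h u : V → V → Prop) (s : Bool) (w : Fin 3 → V) : Prop :=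
  match s with
  | true => AddR h u (w 0) (w 1) (w 2)
  | false => MulR h u (w 0) (w 1) (w 2)

/-- the lowest row satisfies `φ` -/
def RowSat {V : Type} (h u : V → V → Prop) (φ : SFm ArL 0 0) : Prop :=
  @Sat ArL {x // Src u x} (mkS (fun s w => ArRel h u s (fun i => (w i).1))) 0 0 φ Fin.elim0
    Fin.elim0

lemma md_rowSat {b : ℕ} (i0 i1 : Fin b) (φ : SFm ArL 0 0) :
    MD b 0 (fun V R _ => RowSat (R i0) (R i1) φ) := by
  have h1 : ∀ s : Bool, MD b 3 (fun V R w => ArRel (R i0) (R i1) s w) := by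
    intro s
    cases s
    · exact md_mulR i0 i1
    · exact md_addR i0 i1
  refine (mdef_relat (ar := fun _ : Bool => 3) (Z := fun V R x => Src (R i1) x) (md_src i1)
    (ρ := fun s V R w => ArRel (R i0) (R i1) s w) h1 φ).congr fun V R v S => ?_
  have e1 : ∀ h : ∀ i : Fin 0, Src (R i1) (v i),
      (fun i => (⟨v i, h i⟩ : {x // Src (R i1) x})) = Fin.elim0 := fun h => funext fun i => i.elim0
  have e2 : (fun j : Fin 0 => {x : {x // Src (R i1) x} | x.1 ∈ S j}) = Fin.elim0 :=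
    funext fun i => i.elim0
  constructor
  · intro H h
    rw [e1 h, e2]
    exact H
  · intro H
    have h := H (fun i => i.elim0)
    rw [e1, e2] at h
    exact h

/-- the lowest row of the grid is `({0, ..., n - 1}, +, ·)` -/
theorem rowSat_grid (n : ℕ) (φ : SFm ArL 0 0) :
    RowSat (gh n) (gu n) φ ↔ @Sat ArL (Fin n) (mkS (arI n)) 0 0 φ Fin.elim0 Fin.elim0 := by
  let e : {x : Fin n × Fin n // Src (gu n) x} ≃ Fin n :=
    { toFun := fun x => x.1.1
      invFun := fun i => ⟨(i, ⟨0, by have := i.is_lt; omega⟩), (src_gu _).2 rfl⟩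
      left_inv := by
        rintro ⟨x, hx⟩
        apply Subtype.ext
        exact ext20 rfl ((src_gu _).1 hx).symm
      right_inv := fun i => rfl }
  have h := Sat.iso (ar := fun _ : Bool => 3) e
    (fun s w => ArRel (gh n) (gu n) s (fun i => (w i).1)) (arI n) (fun s v => by
      have h0 : ∀ i, (((v i).1.2 : Fin n) : ℕ) = 0 := fun i => (src_gu _).1 (v i).2
      cases s
      · show MulR (gh n) (gu n) (v 0).1 (v 1).1 (v 2).1 ↔
          ((v 0).1.1 : ℕ) * ((v 1).1.1 : ℕ) = ((v 2).1.1 : ℕ)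
        rw [mulR_grid]
        exact ⟨fun h => h.2.2.2, fun h => ⟨h0 0, h0 1, h0 2, h⟩⟩
      · show AddR (gh n) (gu n) (v 0).1 (v 1).1 (v 2).1 ↔
          ((v 0).1.1 : ℕ) + ((v 1).1.1 : ℕ) = ((v 2).1.1 : ℕ)
        rw [addR_grid]
        exact ⟨fun h => h.2.2.2, fun h => ⟨h0 0, h0 1, h0 2, h⟩⟩) φ Fin.elim0 Fin.elim0
  have e1 : (fun i : Fin 0 => e ((Fin.elim0 : Fin 0 → {x // Src (gu n) x}) i)) = Fin.elim0 :=
    funext fun i => i.elim0
  have e2 : (fun j : Fin 0 => e '' ((Fin.elim0 : Fin 0 → Set {x // Src (gu n) x}) j)) = Fin.elim0 :=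
    funext fun i => i.elim0
  rw [e1, e2] at h
  exact h

/-! ## The structures with seven relations -/

/-- the grid: `gh`, `gu`, four empty relations, equality -/
def gridStr (n : ℕ) : Str (6 + 1) (Fin n × Fin n) := fun r =>
  Fin.addCases (motive := fun _ => Fin n × Fin n → Fin n × Fin n → Prop)
    (fun j : Fin 6 => if j = 0 then gh n else if j = 1 then gu n else fun _ _ => False)
    (fun (_ : Fin 1) x y => x = y) r

lemma gridStr_h (n : ℕ) : gridStr n (Fin.castAdd 1 (0 : Fin 6)) = gh n := by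
  unfold gridStr
  rw [Fin.addCases_left]
  rfl

lemma gridStr_u (n : ℕ) : gridStr n (Fin.castAdd 1 (1 : Fin 6)) = gu n := by
  unfold gridStr
  rw [Fin.addCases_left]
  rfl

lemma gridStr_e (n : ℕ) (j : Fin 6) (hj : 2 ≤ j.1) (x y : Fin n × Fin n) :
    ¬ gridStr n (Fin.castAdd 1 j) x y := by
  unfold gridStr
  rw [Fin.addCases_left, if_neg (by rintro rfl; exact absurd hj (by decide)),
    if_neg (by rintro rfl; exact absurd hj (by decide))]
  exact fun h => h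

lemma gridStr_c (n : ℕ) (i : Fin 1) (x y : Fin n × Fin n) :
    gridStr n (Fin.natAdd 6 i) x y ↔ x = y := by
  unfold gridStr
  rw [Fin.addCases_right]

/-- the property -/
def GridP (φ : SFm ArL 0 0) (V : Type) (R : Str (6 + 1) V) : Prop :=
  GridAx (R (Fin.castAdd 1 (0 : Fin 6))) (R (Fin.castAdd 1 (1 : Fin 6))) ∧
    (∀ j : Fin 6, 2 ≤ j.1 → ∀ x y, ¬ R (Fin.castAdd 1 j) x y) ∧
    (∀ i : Fin 1, ∀ x y, R (Fin.natAdd 6 i) x y ↔ x = y) ∧
    RowSat (R (Fin.castAdd 1 (0 : Fin 6))) (R (Fin.castAdd 1 (1 : Fin 6))) φ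

lemma md_gridP (φ : SFm ArL 0 0) : MDef (6 + 1) 0 0 (fun V R _ _ => GridP φ V R) := by
  refine (md_gridAx _ _).and (MDef.and ?_ (MDef.and ?_ (md_rowSat _ _ φ)))
  · refine MDef.allFin (P := fun j V R _ _ => 2 ≤ j.1 → ∀ x y, ¬ R (Fin.castAdd 1 j) x y)
      (fun j => ?_)
    exact (MDef.const _).imp (MDef.all (MDef.all (MDef.rel _ 1 0).not))
  · refine MDef.allFin (P := fun i V R _ _ => ∀ x y, R (Fin.natAdd 6 i) x y ↔ x = y)
      (fun i => ?_)
    exact MDef.all (MDef.all ((MDef.rel _ 1 0).iff (MDef.eq 1 0)))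

theorem gridP_grid {n : ℕ} (hn : 1 ≤ n) (φ : SFm ArL 0 0) : GridP φ (Fin n × Fin n) (gridStr n) ↔
    @Sat ArL (Fin n) (mkS (arI n)) 0 0 φ Fin.elim0 Fin.elim0 := by
  unfold GridP
  rw [gridStr_h, gridStr_u, rowSat_grid]
  exact ⟨fun h => h.2.2.2, fun h => ⟨gridAx_grid hn, gridStr_e n, gridStr_c n, h⟩⟩

theorem GridP.card {φ : SFm ArL 0 0} {V : Type} {R : Str (6 + 1) V} (H : GridP φ V R) :
    ∃ n, 1 ≤ n ∧ Nat.card V = n * n ∧
      @Sat ArL (Fin n) (mkS (arI n)) 0 0 φ Fin.elim0 Fin.elim0 := by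
  obtain ⟨n, hn, e, h1, h2⟩ := H.1.exists_equiv
  refine ⟨n, hn, ?_, ?_⟩
  · rw [Nat.card_congr e]
    simp
  · rw [← gridP_grid hn]
    have h3 := (MDef.iso0 (md_gridP φ) e R).1 H
    have h4 : (fun r x y => R r (e.symm x) (e.symm y)) = gridStr n := by
      funext r x y
      apply propext
      refine Fin.addCases (fun j => ?_) (fun i => ?_) r
      · by_cases j0 : j = 0
        · subst j0
          rw [gridStr_h, h1, e.apply_symm_apply, e.apply_symm_apply]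
        · by_cases j1 : j = 1
          · subst j1
            rw [gridStr_u, h2, e.apply_symm_apply, e.apply_symm_apply]
          · have hj : 2 ≤ j.1 := by
              have h5 : j.1 ≠ 0 := fun h => j0 (Fin.ext h)
              have h6 : j.1 ≠ 1 := fun h => j1 (Fin.ext h)
              omega
            exact iff_of_false (H.2.1 j hj _ _) (gridStr_e n j hj _ _)
      · rw [gridStr_c, H.2.2.1 i, e.symm.injective.eq_iff]
    rw [h4] at h3
    exact h3

end Pool.Agent.Helper20.EX2
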