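import Pool.Agent.Helper14.SS.Defs
import Pool.Agent.Helper20.OP.Interp

/-!
# Monadic second-order definability

`Sat φ v S`: truth of a formula with set quantifiers when the sets range over all subsets.
`MDef b r m P`: the condition `P V R v S` on a structure `(V, R)` with `b` binary relations, `r` elements and
`m` subsets is definable by one formula.
-/

set_option autoImplicit false

namespace Pool.Agent.Helper20.EX2

open FirstOrder FirstOrder.Language Pool.Agent.Helper20.Spectra Pool.Agent.Helper20.OP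
open Pool.Agent.Helper14.SS (SFm)

/-- truth when the set variables range over all subsets -/
def Sat {L : FirstOrder.Language.{0, 0}} {M : Type} [L.Structure M] :
    {k m : ℕ} → SFm L k m → (Fin k → M) → (Fin m → Set M) → Prop
  | _, _, .fo φ, v, _ => φ.Realize v
  | _, _, .mem i j, v, S => v i ∈ S j
  | _, _, .not φ, v, S => ¬ Sat φ v S
  | _, _, .and φ ψ, v, S => Sat φ v S ∧ Sat ψ v S
  | _, _, .ex φ, v, S => ∃ x : M, Sat φ (Fin.cons x v) S
  | _, _, .exSet φ, v, S => ∃ X : Set M, Sat φ v (Fin.cons X S)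

theorem holds_iff_sat {L : FirstOrder.Language.{0, 0}} {M : Type} [L.Structure M] [Finite M] {b : ℕ}
    (hb : Nat.card M ≤ b) {k m : ℕ} (φ : SFm L k m) : ∀ (v : Fin k → M) (X : Fin m → Finset M),
      φ.Holds b v X ↔ Sat φ v (fun j => (X j : Set M)) := by
  classical
  induction φ with
  | fo φ => exact fun v X => Iff.rfl
  | mem i j => exact fun v X => Iff.rfl
  | not φ ih => exact fun v X => not_congr (ih v X)
  | and φ ψ ih ih' => exact fun v X => and_congr (ih v X) (ih' v X)
  | ex φ ih => exact fun v X => exists_congr fun x => ih _ X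
  | exSet φ ih =>
    intro v X
    have e : ∀ Y : Finset M, (fun j => (((Fin.cons Y X : Fin (_ + 1) → Finset M) j : Finset M) : Set M)) =
        Fin.cons (Y : Set M) (fun j => (X j : Set M)) := by
      intro Y
      funext j
      refine Fin.cases ?_ (fun j => ?_) j <;> rfl
    constructor
    · rintro ⟨Y, _, hY⟩
      refine ⟨Y, ?_⟩
      rw [← e Y]
      exact (ih _ _).1 hY
    · rintro ⟨Y, hY⟩
      have hf : Y.Finite := Set.toFinite Y
      refine ⟨hf.toFinset, ?_, (ih _ _).2 ?_⟩
      · refine le_trans ?_ hb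
        have : Fintype M := Fintype.ofFinite M
        rw [Nat.card_eq_fintype_card]
        exact Finset.card_le_univ _
      · rw [e, Set.Finite.coe_toFinset]
        exact hY

lemma Sat.relabel {L : FirstOrder.Language.{0, 0}} {k m : ℕ} (φ : SFm L k m) :
    ∀ {k' m' : ℕ} (g : Fin k → Fin k') (h : Fin m → Fin m'), ∃ ψ : SFm L k' m',
      ∀ (M : Type) (T : L.Structure M) (v : Fin k' → M) (S : Fin m' → Set M),
        @Sat L M T k' m' ψ v S ↔ @Sat L M T k m φ (v ∘ g) (S ∘ h) := by
  induction φ with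
  | fo φ =>
    intro k' m' g h
    exact ⟨.fo (φ.relabel g), fun M T v S => Formula.realize_relabel⟩
  | mem i j =>
    intro k' m' g h
    exact ⟨.mem (g i) (h j), fun _ _ _ _ => Iff.rfl⟩
  | not φ ih =>
    intro k' m' g h
    obtain ⟨ψ, hψ⟩ := ih g h
    exact ⟨.not ψ, fun M T v S => not_congr (hψ M T v S)⟩
  | and φ φ' ih ih' =>
    intro k' m' g h
    obtain ⟨ψ, hψ⟩ := ih g h
    obtain ⟨ψ', hψ'⟩ := ih' g h
    exact ⟨.and ψ ψ', fun M T v S => and_congr (hψ M T v S) (hψ' M T v S)⟩
  | ex φ ih =>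
    intro k' m' g h
    obtain ⟨ψ, hψ⟩ := ih (Fin.cons 0 (fun i => (g i).succ)) h
    refine ⟨.ex ψ, fun M T v S => ?_⟩
    apply exists_congr
    intro x
    rw [hψ]
    have e : ((Fin.cons x v : Fin (_ + 1) → M) ∘ (Fin.cons 0 (fun i => (g i).succ) :
        Fin (_ + 1) → Fin (k' + 1))) = Fin.cons x (v ∘ g) := by
      funext i
      refine Fin.cases ?_ (fun i => ?_) i <;> rfl
    rw [e]
  | exSet φ ih =>
    intro k' m' g h
    obtain ⟨ψ, hψ⟩ := ih g (Fin.cons 0 (fun i => (h i).succ))
    refine ⟨.exSet ψ, fun M T v S => ?_⟩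
    apply exists_congr
    intro X
    rw [hψ]
    have e : ((Fin.cons X S : Fin (_ + 1) → Set M) ∘ (Fin.cons 0 (fun i => (h i).succ) :
        Fin (_ + 1) → Fin (m' + 1))) = Fin.cons X (S ∘ h) := by
      funext i
      refine Fin.cases ?_ (fun i => ?_) i <;> rfl
    rw [e]

/-- invariance under isomorphisms, relational vocabularies -/
theorem Sat.iso {ι : Type} {ar : ι → ℕ} {V W : Type} (e : V ≃ W) (I : Interp ι ar V)
    (J : Interp ι ar W) (hIJ : ∀ s v, I s v ↔ J s (fun i => e (v i))) {k m : ℕ}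
    (φ : SFm (RelLang ι ar) k m) : ∀ (v : Fin k → V) (S : Fin m → Set V),
      @Sat _ V (mkS I) k m φ v S ↔ @Sat _ W (mkS J) k m φ (fun i => e (v i)) (fun j => e '' S j) := by
  induction φ with
  | fo φ =>
    intro v S
    let _ := mkS I
    let _ := mkS J
    let E : V ≃[RelLang ι ar] W :=
      { e with
        map_fun' := fun f => Empty.elim f
        map_rel' := by
          intro n r x
          obtain ⟨s, hs⟩ := r
          subst hs
          exact (hIJ s x).symm }
    exact (StrongHomClass.realize_formula E φ (v := v)).symm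
  | mem i j =>
    intro v S
    show v i ∈ S j ↔ e (v i) ∈ e '' S j
    rw [e.injective.mem_set_image]
  | not φ ih => exact fun v S => not_congr (ih v S)
  | and φ ψ ih ih' => exact fun v S => and_congr (ih v S) (ih' v S)
  | ex φ ih =>
    intro v S
    have h : ∀ x : V, (fun i => e ((Fin.cons x v : Fin (_ + 1) → V) i)) =
        Fin.cons (e x) (fun i => e (v i)) := by
      intro x
      funext i
      refine Fin.cases ?_ (fun i => ?_) i <;> rfl
    constructor
    · rintro ⟨x, hx⟩
      refine ⟨e x, ?_⟩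
      rw [← h]
      exact (ih _ _).1 hx
    · rintro ⟨y, hy⟩
      obtain ⟨x, rfl⟩ := e.surjective y
      refine ⟨x, (ih _ _).2 ?_⟩
      rw [h]
      exact hy
  | exSet φ ih =>
    intro v S
    have h : ∀ X : Set V, (fun j => e '' ((Fin.cons X S : Fin (_ + 1) → Set V) j)) =
        Fin.cons (e '' X) (fun j => e '' S j) := by
      intro X
      funext j
      refine Fin.cases ?_ (fun j => ?_) j <;> rfl
    constructor
    · rintro ⟨X, hX⟩
      refine ⟨e '' X, ?_⟩
      rw [← h]
      exact (ih _ _).1 hX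
    · rintro ⟨Y, hY⟩
      refine ⟨e.symm '' Y, (ih _ _).2 ?_⟩
      rw [h]
      have : e '' (e.symm '' Y) = Y := by
        rw [← Set.image_comp]
        simp
      rw [this]
      exact hY

/-- definable conditions on a structure, `r` elements and `m` subsets -/
def MDef (b r m : ℕ) (P : ∀ V : Type, Str b V → (Fin r → V) → (Fin m → Set V) → Prop) : Prop :=
  ∃ φ : SFm (binLang b) r m, ∀ (V : Type) (R : Str b V) (v : Fin r → V) (S : Fin m → Set V),
    @Sat _ V (toStr R) r m φ v S ↔ P V R v S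

namespace MDef

variable {b r m : ℕ}

lemma congr {P Q : ∀ V : Type, Str b V → (Fin r → V) → (Fin m → Set V) → Prop}
    (h : MDef b r m P) (hPQ : ∀ V R v S, Q V R v S ↔ P V R v S) : MDef b r m Q := by
  obtain ⟨φ, hφ⟩ := h
  exact ⟨φ, fun V R v S => (hφ V R v S).trans (hPQ V R v S).symm⟩

lemma not {P : ∀ V : Type, Str b V → (Fin r → V) → (Fin m → Set V) → Prop} (h : MDef b r m P) :
    MDef b r m (fun V R v S => ¬ P V R v S) := by
  obtain ⟨φ, hφ⟩ := h
  exact ⟨.not φ, fun V R v S => not_congr (hφ V R v S)⟩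

lemma and {P Q : ∀ V : Type, Str b V → (Fin r → V) → (Fin m → Set V) → Prop}
    (h : MDef b r m P) (h' : MDef b r m Q) : MDef b r m (fun V R v S => P V R v S ∧ Q V R v S) := by
  obtain ⟨φ, hφ⟩ := h
  obtain ⟨ψ, hψ⟩ := h'
  exact ⟨.and φ ψ, fun V R v S => and_congr (hφ V R v S) (hψ V R v S)⟩

lemma or {P Q : ∀ V : Type, Str b V → (Fin r → V) → (Fin m → Set V) → Prop}
    (h : MDef b r m P) (h' : MDef b r m Q) : MDef b r m (fun V R v S => P V R v S ∨ Q V R v S) :=
  (h.not.and h'.not).not.congr (fun V R v S => by tauto)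

lemma imp {P Q : ∀ V : Type, Str b V → (Fin r → V) → (Fin m → Set V) → Prop}
    (h : MDef b r m P) (h' : MDef b r m Q) : MDef b r m (fun V R v S => P V R v S → Q V R v S) :=
  (h.not.or h').congr (fun V R v S => by tauto)

lemma iff {P Q : ∀ V : Type, Str b V → (Fin r → V) → (Fin m → Set V) → Prop}
    (h : MDef b r m P) (h' : MDef b r m Q) :
    MDef b r m (fun V R v S => (P V R v S ↔ Q V R v S)) :=
  ((h.imp h').and (h'.imp h)).congr (fun V R v S => by tauto)

lemma mem (i : Fin r) (j : Fin m) : MDef b r m (fun _ _ v S => v i ∈ S j) :=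
  ⟨.mem i j, fun _ _ _ _ => Iff.rfl⟩

/-- first-order definable conditions -/
lemma fo {P : ∀ V : Type, Str b V → (Fin r → V) → Prop} (h : Def b r P) :
    MDef b r m (fun V R v _ => P V R v) := by
  obtain ⟨φ, hφ⟩ := h
  refine ⟨.fo (φ.toFormula.relabel (Sum.elim Empty.elim id)), fun V R v S => ?_⟩
  refine Iff.trans ?_ (hφ V R v)
  let _ := toStr R
  show (φ.toFormula.relabel (Sum.elim Empty.elim id)).Realize v ↔ _
  rw [Formula.realize_relabel, BoundedFormula.realize_toFormula]
  have e1 : (v ∘ (Sum.elim Empty.elim id : Empty ⊕ Fin r → Fin r)) ∘ Sum.inl = default :=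
    Subsingleton.elim _ _
  have e2 : (v ∘ (Sum.elim Empty.elim id : Empty ⊕ Fin r → Fin r)) ∘ Sum.inr = v := rfl
  rw [e1, e2]

lemma const (p : Prop) : MDef b r m (fun _ _ _ _ => p) := fo (Def.const p)

lemma eq (i j : Fin r) : MDef b r m (fun _ _ v _ => v i = v j) := fo (Def.eq i j)

lemma rel (s : Fin b) (i j : Fin r) : MDef b r m (fun _ R v _ => R s (v i) (v j)) :=
  fo (Def.rel s i j)

lemma sub {P : ∀ V : Type, Str b V → (Fin r → V) → (Fin m → Set V) → Prop} (h : MDef b r m P)
    {r' m' : ℕ} (g : Fin r → Fin r') (f : Fin m → Fin m') :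
    MDef b r' m' (fun V R v S => P V R (v ∘ g) (S ∘ f)) := by
  obtain ⟨φ, hφ⟩ := h
  obtain ⟨ψ, hψ⟩ := Sat.relabel φ g f
  exact ⟨ψ, fun V R v S => (hψ V (toStr R) v S).trans (hφ V R _ _)⟩

lemma ex {P : ∀ V : Type, Str b V → (Fin r → V) → (Fin m → Set V) → V → Prop}
    (h : MDef b (r + 1) m (fun V R w S => P V R (Fin.tail w) S (w 0))) :
    MDef b r m (fun V R v S => ∃ x, P V R v S x) := by
  obtain ⟨φ, hφ⟩ := h
  exact ⟨.ex φ, fun V R v S => exists_congr (fun x => hφ V R (Fin.cons x v) S)⟩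

lemma all {P : ∀ V : Type, Str b V → (Fin r → V) → (Fin m → Set V) → V → Prop}
    (h : MDef b (r + 1) m (fun V R w S => P V R (Fin.tail w) S (w 0))) :
    MDef b r m (fun V R v S => ∀ x, P V R v S x) :=
  (ex (P := fun V R v S x => ¬ P V R v S x) h.not).not.congr
    (fun V R v S => by simp only [not_exists, not_not])

lemma exS {P : ∀ V : Type, Str b V → (Fin r → V) → (Fin m → Set V) → Set V → Prop}
    (h : MDef b r (m + 1) (fun V R v W => P V R v (Fin.tail W) (W 0))) :
    MDef b r m (fun V R v S => ∃ X, P V R v S X) := by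
  obtain ⟨φ, hφ⟩ := h
  exact ⟨.exSet φ, fun V R v S => exists_congr (fun X => hφ V R v (Fin.cons X S))⟩

lemma allS {P : ∀ V : Type, Str b V → (Fin r → V) → (Fin m → Set V) → Set V → Prop}
    (h : MDef b r (m + 1) (fun V R v W => P V R v (Fin.tail W) (W 0))) :
    MDef b r m (fun V R v S => ∀ X, P V R v S X) :=
  (exS (P := fun V R v S X => ¬ P V R v S X) h.not).not.congr
    (fun V R v S => by simp only [not_exists, not_not])

/-- closed under isomorphisms -/
theorem iso0 {P : ∀ V : Type, Str b V → Prop} (hP : MDef b 0 0 (fun V R _ _ => P V R))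
    {V W : Type} (e : V ≃ W) (R : Str b V) :
    P V R ↔ P W (fun r x y => R r (e.symm x) (e.symm y)) := by
  obtain ⟨φ, hφ⟩ := hP
  refine Iff.trans (hφ V R Fin.elim0 Fin.elim0).symm (Iff.trans ?_ (hφ W _ Fin.elim0 Fin.elim0))
  have h := Sat.iso e (fun r v => R r (v 0) (v 1))
    (fun r v => R r (e.symm (v 0)) (e.symm (v 1)))
    (fun s v => by
      show R s (v 0) (v 1) ↔ R s (e.symm (e (v 0))) (e.symm (e (v 1)))
      rw [e.symm_apply_apply, e.symm_apply_apply]) φ Fin.elim0 Fin.elim0
  have e1 : (fun i : Fin 0 => e ((Fin.elim0 : Fin 0 → V) i)) = Fin.elim0 := funext fun i => i.elim0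
  have e2 : (fun j : Fin 0 => e '' ((Fin.elim0 : Fin 0 → Set V) j)) = Fin.elim0 :=
    funext fun i => i.elim0
  rw [e1, e2] at h
  exact h

end MDef

/-- definable relations between elements -/
def MD (b r : ℕ) (P : ∀ V : Type, Str b V → (Fin r → V) → Prop) : Prop :=
  MDef b r 0 (fun V R v _ => P V R v)

lemma MD.app {b r : ℕ} {P : ∀ V : Type, Str b V → (Fin r → V) → Prop} (h : MD b r P) {r' m' : ℕ}
    (g : Fin r → Fin r') : MDef b r' m' (fun V R v _ => P V R (v ∘ g)) :=
  h.sub g (Fin.elim0 : Fin 0 → Fin m')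

/-- reachability in a definable relation -/
lemma MDef.reach {b r m : ℕ} {P : ∀ V : Type, Str b V → (Fin r → V) → V → V → Prop}
    (h : MD b (r + 2) (fun V R w => P V R (Fin.tail (Fin.tail w)) (w 1) (w 0))) (i j : Fin r) :
    MDef b r m (fun V R v _ => Relation.ReflTransGen (P V R v) (v i) (v j)) := by
  have h1 : MDef b r m (fun V R v _ => ∀ X : Set V, v i ∈ X →
      (∀ x, ∀ y, x ∈ X → P V R v x y → y ∈ X) → v j ∈ X) := by
    refine MDef.allS ?_
    refine (MDef.mem i 0).imp (MDef.imp (MDef.all (MDef.all (((MDef.mem 1 0).imp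
      ((h.app (m' := m + 1) id).imp (MDef.mem 0 0)))))) (MDef.mem j 0))
  refine h1.congr (fun V R v S => ?_)
  constructor
  · intro h2 X hi hX
    have key : ∀ y, Relation.ReflTransGen (P V R v) (v i) y → y ∈ X := by
      intro y h3
      induction h3 with
      | refl => exact hi
      | tail _ hbc ih => exact hX _ _ ih hbc
    exact key _ h2
  · intro h2
    exact h2 {y | Relation.ReflTransGen (P V R v) (v i) y} Relation.ReflTransGen.refl
      (fun x y hx hxy => Relation.ReflTransGen.tail hx hxy)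

end Pool.Agent.Helper20.EX2
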