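import Pool.Agent.Helper20.EX2.GridDef
import Pool.Agent.Helper20.FS.SkCod

/-!
# Skeleton codes of monadic second-order properties
-/

set_option autoImplicit false
set_option linter.unusedVariables false

namespace Pool.Agent.Helper20.EX2

open FirstOrder FirstOrder.Language Pool.Agent.Helper20.Spectra Pool.Agent.Helper20.OP
open Pool.Agent.Helper20.FS
open Pool.Agent.Helper14.SS (SFm ArL arI)

/-- skeleton codes of definable properties are definable -/
theorem md_skCode {b : ℕ} {sk : ∀ V : Type, Str b V → SkRel V} (hsk : DefSk sk) (k q m : ℕ)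
    {P : ∀ V : Type, Str (6 + q) V → Prop} (hP : MDef (6 + q) 0 0 (fun V R _ _ => P V R)) :
    MDef b 0 0 (fun V R _ _ => SkCode sk k q m P V R) := by
  have hρ : ∀ r : Fin (6 + q), Def2 b (fun V R => relOf (sk V R) k q r) := by
    intro r
    refine Fin.addCases (fun j => ?_) (fun i => ?_) r
    · have h1 : (fun V (R : Str b V) => relOf (sk V R) k q (Fin.castAdd q j)) =
          fun V R => (sk V R).F k q j.1 := by
        funext V R
        unfold relOf
        rw [Fin.addCases_left]
      rw [h1]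
      exact hsk.F k q j.1
    · have h1 : (fun V (R : Str b V) => relOf (sk V R) k q (Fin.natAdd 6 i)) =
          fun V R => fun x y => x = y ∧ (sk V R).D (le k i.1) x := by
        funext V R
        unfold relOf
        rw [Fin.addCases_right]
      rw [h1]
      exact Def.and (Def.eq 0 1) ((hsk.D (le k i.1)).app 0)
  have h2 : Def b 0 (fun V R _ => ∀ v, ∃ x, (sk V R).own k q v x ∧
      ∀ x', (sk V R).own k q v x' → x' = x) :=
    Def.all (Def.ex (Def.and ((hsk.own k q).app 0 1)
      (Def.all (Def.imp ((hsk.own k q).app 0 2) (Def.eq 2 1)))))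
  have h3 : Def b 0 (fun V R _ => ∀ x, (sk V R).cell k q x →
      Exactly m (fun v => (sk V R).own k q v x)) :=
    Def.all (Def.imp ((hsk.cell k q).app 0) (Def.exactly m ((hsk.own k q).app 1 0)))
  obtain ⟨φ, hφ⟩ := hP
  have h1 := mdef_relat (ar := fun _ : Fin (6 + q) => 2)
    (Z := fun V R x => (sk V R).cell k q x) (MDef.fo (hsk.cell k q))
    (ρ := fun r V R w => relOf (sk V R) k q r (w 0) (w 1)) (fun r => MDef.fo (hρ r)) φ
  refine MDef.and (h1.congr fun V R v S => ?_) ((MDef.fo h2).and (MDef.fo h3))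
  have e1 : ∀ h : ∀ i : Fin 0, (sk V R).cell k q (v i),
      (fun i => (⟨v i, h i⟩ : {x // (sk V R).cell k q x})) = Fin.elim0 :=
    fun h => funext fun i => i.elim0
  have e2 : (fun j : Fin 0 => {x : {x // (sk V R).cell k q x} | x.1 ∈ S j}) = Fin.elim0 :=
    funext fun i => i.elim0
  refine (hφ {x // (sk V R).cell k q x} (fun r x y => relOf (sk V R) k q r x.1 y.1) Fin.elim0
    Fin.elim0).symm.trans ?_
  constructor
  · intro H h
    rw [e1 h, e2]
    exact H
  · intro H
    have h := H (fun i => i.elim0)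
    rw [e1, e2] at h
    exact h

open Classical in
/-- the model is a skeleton code, for properties closed under isomorphisms -/
theorem skCode_model' {b : ℕ} {sk : ∀ V : Type, Str b V → SkRel V} {k q : ℕ} (hk : 1 ≤ k)
    {P : ∀ V : Type, Str (6 + q) V → Prop}
    (hP : ∀ (V W : Type) (e : V ≃ W) (R : Str (6 + q) V),
      P V R → P W (fun r x y => R r (e.symm x) (e.symm y))) {V Z : Type} [Finite V]
    {R : Str b V} {g : Prop} (R₀ : Str (6 + q) Z) (c : Z → Fin q)
    (hf : ∀ j : Fin 6, PInj (R₀ (Fin.castAdd q j)))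
    (hc : ∀ (i : Fin q) (x y : Z), R₀ (Fin.natAdd 6 i) x y ↔ (x = y ∧ c x = i)) (hR₀ : P Z R₀)
    {el : (Z × Fin 12) × Fin 3 → ℕ → V} {jn : Z × Fin 12 → V}
    (h : LegModel (sk V R) g (skN k q c) (skM (fun j => R₀ (Fin.castAdd q j))) el jn) :
    SkCode sk k q (mk0 k q + (if g then 12 else 0)) P V R ∧
      Nat.card {x // (sk V R).cell k q x} = Nat.card Z := by
  have hn : ∀ z : Z, 0 < skN k q c ((z, 0), 0) := fun z => by
    have := skN_le k q c ((z, 0), 0)
    omega
  have hinj : ∀ z z' : Z, el ((z, 0), 0) 0 = el ((z', 0), 0) 0 → z = z' := fun z z' he =>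
    congrArg (fun b => b.1.1) (h.inj _ _ _ _ (hn z) (hn z') he).1
  let φ : Z → {x // (sk V R).cell k q x} := fun z =>
    ⟨el ((z, 0), 0) 0, (cell_iff h hf hk _).2 ⟨z, rfl⟩⟩
  have hφ : Function.Bijective φ := by
    constructor
    · intro z z' he
      exact hinj z z' (congrArg Subtype.val he)
    · rintro ⟨x, hx⟩
      obtain ⟨z, rfl⟩ := (cell_iff h hf hk x).1 hx
      exact ⟨z, rfl⟩
  let e : Z ≃ {x // (sk V R).cell k q x} := Equiv.ofBijective φ hφ
  have he : ∀ z, (e z).1 = el ((z, 0), 0) 0 := fun z => rfl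
  refine ⟨⟨?_, own_existsUnique h hf hk, ?_⟩, (Nat.card_congr e).symm⟩
  · have h1 := hP _ _ e R₀ hR₀
    have h2 : (fun r x y => R₀ r (e.symm x) (e.symm y)) =
        fun (r : Fin (6 + q)) (x y : {x // (sk V R).cell k q x}) =>
          relOf (sk V R) k q r x.1 y.1 := by
      funext r x y
      apply propext
      obtain ⟨z, rfl⟩ := e.surjective x
      obtain ⟨z', rfl⟩ := e.surjective y
      rw [e.symm_apply_apply, e.symm_apply_apply, he, he]
      unfold relOf
      refine Fin.addCases (fun j => ?_) (fun i => ?_) r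
      · rw [Fin.addCases_left]
        exact (F_iff h hf hk j z z').symm
      · rw [Fin.addCases_right, hc, col_iff h hf hk z i.1 i.2]
        constructor
        · rintro ⟨h3, h4⟩
          exact ⟨by rw [h3], by rw [h4]⟩
        · rintro ⟨h3, h4⟩
          exact ⟨hinj z z' h3, Fin.ext h4⟩
    rw [h2] at h1
    exact h1
  · intro x hx
    obtain ⟨z, rfl⟩ := (cell_iff h hf hk x).1 hx
    rw [exactly_iff]
    exact own_card h hf hk z

/-- the relations of the grid are partial injections -/
lemma pinj_grid (n : ℕ) (j : Fin 6) : PInj (gridStr n (Fin.castAdd 1 j)) := by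
  by_cases j0 : j = 0
  · subst j0
    rw [gridStr_h]
    exact ⟨fun x y y' h1 h2 => ext20 (h1.1.symm.trans h2.1) (h1.2.symm.trans h2.2),
      fun x x' y h1 h2 => ext20 (by have := h1.1; have := h2.1; omega) (h1.2.trans h2.2.symm)⟩
  · by_cases j1 : j = 1
    · subst j1
      rw [gridStr_u]
      exact ⟨fun x y y' h1 h2 => ext20 (h1.1.symm.trans h2.1) (h1.2.symm.trans h2.2),
        fun x x' y h1 h2 => ext20 (h1.1.trans h2.1.symm) (by have := h1.2; have := h2.2; omega)⟩
    · have hj : 2 ≤ j.1 := by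
        have h5 : j.1 ≠ 0 := fun h => j0 (Fin.ext h)
        have h6 : j.1 ≠ 1 := fun h => j1 (Fin.ext h)
        omega
      exact ⟨fun x y y' h1 _ => absurd h1 (gridStr_e n j hj _ _),
        fun x x' y h1 _ => absurd h1 (gridStr_e n j hj _ _)⟩

end Pool.Agent.Helper20.EX2
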