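import Pool.Agent.Helper20.EX2.SkM
import Pool.Agent.Helper14.SS.Main
import Pool.Agent.Helper32.MX.Tame
import Pool.Agent.Helper29.EX.MonoMain

/-!
# Monadic second-order spectra over definable classes of graphs closed under subgraphs

If such a class contains all forests of subdivided claws then some monadic second-order spectrum over it
is not rudimentary.
-/

set_option autoImplicit false
set_option linter.unusedVariables false

namespace Pool.Agent.Helper20.EX2

open FirstOrder FirstOrder.Language Pool.Agent.Helper20.Spectra Pool.Agent.Helper20.OP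
open Pool.Agent.Helper20.FS
open Pool.Agent.Helper20.EX (stars EdgeOf subdiv IsSubdiv HasSub SpectrumOver Monotone SomewhereDense)
open Pool.Agent.Helper29.EX
open Pool.Agent.Helper32.MX (MSpectrumOver)
open Pool.Agent.Helper14.SS

/-- conversion to the formulas with bounded set quantifiers -/
lemma holds_fin {L : FirstOrder.Language.{0, 0}} {n : ℕ} (T : L.Structure (Fin n)) (φ : SFm L 0 0) :
    @SFm.Holds L (Fin n) T n 0 0 φ Fin.elim0 Fin.elim0 ↔
      @Sat L (Fin n) T 0 0 φ Fin.elim0 Fin.elim0 := by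
  refine (holds_iff_sat (by simp) φ Fin.elim0 Fin.elim0).trans ?_
  have e : (fun j : Fin 0 => (((Fin.elim0 : Fin 0 → Finset (Fin n)) j : Finset (Fin n)) :
      Set (Fin n))) = Fin.elim0 := funext fun j => j.elim0
  rw [e]

/-- a monadic second-order property gives a spectrum -/
lemma mspec_of {K : ∀ n : ℕ, Str 1 (Fin n) → Prop} {P : ∀ V : Type, Str 1 V → Prop}
    (hP : MDef 1 0 0 (fun V R _ _ => P V R)) :
    MSpectrumOver K {n | 1 ≤ n ∧ ∃ R : Str 1 (Fin n), K n R ∧ P (Fin n) R} := by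
  obtain ⟨φ, hφ⟩ := hP
  refine ⟨φ, fun n => and_congr Iff.rfl (exists_congr fun R => and_congr Iff.rfl ?_)⟩
  exact ((holds_fin (toStr R) φ).trans (hφ (Fin n) R Fin.elim0 Fin.elim0)).symm

/-- first-order spectra are monadic second-order spectra -/
lemma mspec_fo {K : ∀ n : ℕ, Str 1 (Fin n) → Prop} {A : Set ℕ} (hA : SpectrumOver K A) :
    MSpectrumOver K A := by
  obtain ⟨φ, hφ⟩ := hA
  have h := mspec_of (K := K) (P := fun V R => Models R φ) (MDef.fo (Def0.models φ))
  have e : A = {n | 1 ≤ n ∧ ∃ R : Str 1 (Fin n), K n R ∧ Models R φ} := Set.ext hφ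
  rw [e]
  exact h

variable {K : ∀ n : ℕ, Str 1 (Fin n) → Prop} {ψ : (binLang 1).Sentence}

/-- coding of the sets of numbers definable with all sets -/
theorem mspec_code (hK : DefBy K ψ) (hM : Monotone K) (hS : HasAll claws K) :
    ∃ m : ℕ, 1 ≤ m ∧ ∀ φ : SFm ArL 0 0, ∃ A : Set ℕ, MSpectrumOver K A ∧ ∀ n : ℕ, 1 ≤ n →
      (m * n ^ 2 ∈ A ↔ @SFm.Holds ArL (Fin n) (mkS (arI n)) n 0 0 φ Fin.elim0 Fin.elim0) := by
  classical
  obtain ⟨k, hk, hmod⟩ := mono_models hK hM hS
  have hm : 1 ≤ mk0 k 1 + 12 := by omega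
  refine ⟨mk0 k 1 + 12, hm, fun φ => ?_⟩
  set m := mk0 k 1 + 12 with hmdef
  have hP := md_skCode defSk_G k 1 m (md_gridP φ)
  refine ⟨_, mspec_of (K := K) hP, fun n hn => ?_⟩
  rw [holds_fin]
  constructor
  · rintro ⟨-, R, -, hR⟩
    have hc := hR.card
    obtain ⟨n', hn', h1, h2⟩ := hR.1.card
    rw [h1, Nat.card_fin] at hc
    have h3 : n ^ 2 = n' ^ 2 := by
      have h4 := Nat.eq_of_mul_eq_mul_left (by omega : 0 < m) hc
      rw [h4, pow_two]
    have h5 : n = n' := Nat.pow_left_injective (n := 2) (by omega) h3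
    rw [h5]
    exact h2
  · intro h
    have h1 := (gridP_grid hn φ).2 h
    obtain ⟨V, hV, R, el, jn, hC, hL⟩ := hmod ((Fin n × Fin n) × Fin 12) inferInstance
      (skN k 1 (fun _ => 0)) (skM (fun j => gridStr n (Fin.castAdd 1 j)))
      (mat_skM (pinj_grid n)) (skN_le k 1 _) (skN_even k 1 _)
    obtain ⟨h2, h3⟩ := skCode_model' hk (fun V W e R hR => (MDef.iso0 (md_gridP φ) e R).1 hR)
      (gridStr n) (fun _ => (0 : Fin 1)) (pinj_grid n) (fun i x y => by
        rw [gridStr_c]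
        exact ⟨fun h => ⟨h, Subsingleton.elim _ _⟩, fun h => h.1⟩) h1 hL
    rw [if_pos trivial] at h2
    have hcard : Nat.card V = m * n ^ 2 := by
      rw [h2.card, h3]
      simp [pow_two, hmdef]
    let e : V ≃ Fin (m * n ^ 2) := (Finite.equivFin V).trans (finCongr hcard)
    refine ⟨Nat.mul_pos hm (pow_pos hn 2), _, (hK _ _).2 ?_, (MDef.iso0 hP e R).1 h2⟩
    exact (Def0.iso (def_kv ψ) e R).1 hC

/-- **The wild case.** -/
theorem mso_wild (hK : DefBy K ψ) (hM : Monotone K) (hS : HasAll claws K) :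
    ∃ A : Set ℕ, MSpectrumOver K A ∧ ¬ IsRudimentary A := by
  by_contra hcon
  push Not at hcon
  have hFO : ∀ A : Set ℕ, SpectrumOver K A → IsRudimentary A := fun A hA => hcon A (mspec_fo hA)
  have hQ := (mono_universal hK hM hS).2.1 hFO
  obtain ⟨D, ⟨φ, hD⟩, hDr⟩ := diag trans_all id monotone_id (fun b => ⟨b, le_rfl⟩)
    (fun A hA => ((hQ A).1 hA).1)
  obtain ⟨m, hm, hcode⟩ := mspec_code hK hM hS
  obtain ⟨A, hA, hA'⟩ := hcode φ
  apply hDr
  have h1 := (hcon A hA).preimage (Polynomial.C m * Polynomial.X ^ 2)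
  have h2 : D = {n : ℕ | 1 ≤ n ∧ (Polynomial.C m * Polynomial.X ^ 2 : Polynomial ℕ).eval n ∈ A} := by
    rw [hD]
    ext n
    refine and_congr_right fun hn => ?_
    refine (hA' n hn).symm.trans ?_
    simp only [Polynomial.eval_mul, Polynomial.eval_C, Polynomial.eval_pow, Polynomial.eval_X]
  rw [h2]
  exact h1

/-- ultimately periodic sets are rudimentary -/
lemma ultPeriodic_rud {A : Set ℕ} (hA : UltPeriodic A) : IsRudimentary A := by
  obtain ⟨p, N, hp, h⟩ := hA
  have hs : ∀ s r, N ≤ r → (r ∈ A ↔ r + p * s ∈ A) := by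
    intro s
    induction s with
    | zero => intro r _; rw [mul_zero, add_zero]
    | succ s ih =>
      intro r hr
      rw [ih r hr, h (r + p * s) (by omega), mul_add, mul_one, add_assoc]
  apply isRudimentary_of
  have x0 : Helper20.Spectra.IsPoly 1 (fun v => v 0) := Helper20.Spectra.IsPoly.var 0
  have n1 : Helper20.Spectra.IsPoly 2 (fun w => Fin.tail w 0) := Helper20.Spectra.IsPoly.var 1
  have s0 : Helper20.Spectra.IsPoly 2 (fun w => w 0) := Helper20.Spectra.IsPoly.var 0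
  have h1 : RudX (fun x : Empty => x.elim) 1 (fun _ v => ∃ r : Fin (N + p), (r : ℕ) ∈ A ∧
      (((r : ℕ) < N ∧ v 0 = r) ∨ (N ≤ (r : ℕ) ∧ ∃ s, s ≤ v 0 ∧ v 0 = r + p * s))) := by
    refine RudX.ex_fin fun r => RudX.and' (RudX.const _) (RudX.or (RudX.and' (RudX.const _)
      (RudX.eq x0 (Helper20.Spectra.IsPoly.const _))) (RudX.and' (RudX.const _) (RudX.ex x0 (RudX.eq n1
        ((Helper20.Spectra.IsPoly.const _).add ((Helper20.Spectra.IsPoly.const _).mul s0))))))
  refine h1.congr fun _ v => ?_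
  constructor
  · intro hv
    rcases Nat.lt_or_ge (v 0) N with hlt | hge
    · exact ⟨⟨v 0, by omega⟩, hv, Or.inl ⟨hlt, rfl⟩⟩
    · have hmod := Nat.mod_lt (v 0 - N) hp
      have hdm := Nat.mod_add_div (v 0 - N) p
      have hle : (v 0 - N) / p ≤ v 0 := (Nat.div_le_self _ _).trans (Nat.sub_le _ _)
      have he : v 0 = N + (v 0 - N) % p + p * ((v 0 - N) / p) := by omega
      refine ⟨⟨N + (v 0 - N) % p, by omega⟩, ?_, Or.inr ⟨Nat.le_add_right _ _, (v 0 - N) / p,
        hle, he⟩⟩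
      show N + (v 0 - N) % p ∈ A
      rw [hs ((v 0 - N) / p) _ (Nat.le_add_right _ _), ← he]
      exact hv
  · rintro ⟨r, hr, ⟨_, h2⟩ | ⟨h2, s, _, h3⟩⟩
    · rw [h2]; exact hr
    · rw [h3]; exact (hs s _ h2).1 hr

/-- All monadic second-order spectra over `K` are rudimentary if and only if `K` omits a forest of
subdivided claws, and then all are ultimately periodic. -/
theorem mso_dichotomy (hK : DefBy K ψ) (hM : Monotone K) :
    ((∀ A : Set ℕ, MSpectrumOver K A → IsRudimentary A) ↔ ¬ HasAll claws K) ∧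
    (¬ HasAll claws K → ∀ A : Set ℕ, MSpectrumOver K A → UltPeriodic A) := by
  have h0 : ¬ HasAll claws K → ∀ A : Set ℕ, MSpectrumOver K A → UltPeriodic A :=
    fun hS A hA => Pool.Agent.Helper32.MX.mso_tame hK hM hS hA
  refine ⟨⟨fun h hS => ?_, fun hS A hA => ?_⟩, h0⟩
  · obtain ⟨A, hA, hr⟩ := mso_wild hK hM hS
    exact hr (h A hA)
  · exact ultPeriodic_rud (h0 hS A hA)

end Pool.Agent.Helper20.EX2
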